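import Mathlib

/-!
# QHalf, module Approx: rational approximations with coprimality conditions (helper36)
-/

set_option autoImplicit false

namespace Pool.Agent.QHalf

lemma bez (a q : ℤ) (hq : 0 < q) (h : IsCoprime a q) :
    ∃ a' q' : ℤ, 0 < q' ∧ q' ≤ q ∧ a * q' - a' * q = 1 := by
  obtain ⟨u, w, huw⟩ := h
  refine ⟨-w - a * ((u - 1) / q), (u - 1) % q + 1, ?_, ?_, ?_⟩
  · have := Int.emod_nonneg (u - 1) hq.ne'
    omega
  · have := Int.emod_lt_of_pos (u - 1) hq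
    omega
  · have h1 := Int.emod_add_mul_ediv (u - 1) q
    have h2 : (u - 1) % q = u - 1 - q * ((u - 1) / q) := by linarith
    rw [h2]
    linear_combination huw

lemma irr_gap {θ : ℝ} (hθ : Irrational θ) (K : ℕ) :
    ∃ δ : ℝ, 0 < δ ∧ ∀ q : ℤ, 0 < q → q ≤ K → ∀ a : ℤ, δ < |θ * q - a| := by
  induction K with
  | zero => exact ⟨1, one_pos, fun q h1 h2 => absurd h2 (by push_cast; omega)⟩
  | succ K ih =>
    obtain ⟨δ, hδ, h⟩ := ih
    set x : ℝ := θ * ((K + 1 : ℕ) : ℤ) with hx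
    have hne : x ≠ round x := by
      intro h1
      have h2 : Irrational x := by
        rw [hx]
        refine Irrational.mul_intCast hθ ?_
        push_cast
        omega
      exact h2 ⟨(round x : ℤ), by rw [Rat.cast_intCast]; exact h1.symm⟩
    have hpos : 0 < |x - round x| := abs_pos.2 (sub_ne_zero.2 hne)
    refine ⟨min δ (|x - round x| / 2), lt_min hδ (by positivity), fun q h1 h2 a => ?_⟩
    rcases (Int.lt_or_eq_of_le h2) with h3 | h3
    · exact (min_le_left _ _).trans_lt (h q h1 (by push_cast at h3; omega) a)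
    · subst h3
      refine (min_le_right _ _).trans_lt ?_
      have := round_le x a
      rw [← hx]
      linarith

lemma approx0 {θ : ℝ} (hθ : Irrational θ) (K : ℕ) :
    ∃ a q : ℤ, (K : ℤ) < q ∧ IsCoprime a q ∧ |θ * q - a| ≤ 1 / q := by
  obtain ⟨δ, hδ, h⟩ := irr_gap hθ K
  obtain ⟨n, hn⟩ := exists_nat_gt (1 / δ)
  have hn0 : 0 < n := by
    have : (0 : ℝ) < n := lt_trans (by positivity) hn
    exact_mod_cast this
  obtain ⟨j, k, hk0, hkn, hjk⟩ := Real.exists_int_int_abs_mul_sub_le θ hn0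
  obtain ⟨g, a, q, hg, hcop', ha, hq⟩ := Int.exists_gcd_one'
    (Int.gcd_pos_of_ne_zero_right j hk0.ne')
  have hgz : (0 : ℤ) < g := by exact_mod_cast hg
  have hq0 : 0 < q := by
    rw [hq] at hk0
    exact pos_of_mul_pos_left hk0 hgz.le
  have hg1 : (1 : ℝ) ≤ g := by exact_mod_cast hg
  have hcop : IsCoprime a q := Int.isCoprime_iff_gcd_eq_one.2 hcop'
  have herr : |θ * q - a| ≤ 1 / (n + 1) := by
    have h2 : θ * q - a = (k * θ - j) / g := by
      have h3 : (k : ℝ) = q * g := by exact_mod_cast hq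
      have h4 : (j : ℝ) = a * g := by exact_mod_cast ha
      rw [eq_div_iff (by positivity)]
      linear_combination (-θ) * h3 + h4
    rw [h2, abs_div, abs_of_pos (by positivity : (0:ℝ) < (g : ℝ))]
    exact (div_le_self (abs_nonneg _) hg1).trans hjk
  have hqn : q ≤ n := by
    have : q ≤ k := by
      rw [hq]
      nlinarith
    omega
  refine ⟨a, q, ?_, hcop, herr.trans ?_⟩
  · by_contra hc
    push Not at hc
    have h1 := h q hq0 hc a
    have h2 : 1 / ((n : ℝ) + 1) < δ := by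
      rw [div_lt_iff₀ (by positivity)]
      rw [div_lt_iff₀ hδ] at hn
      nlinarith
    linarith
  · have h1 : (q : ℝ) ≤ n := by exact_mod_cast hqn
    have h2 : (0 : ℝ) < q := by exact_mod_cast hq0
    exact one_div_le_one_div_of_le h2 (by linarith)

/-- approximations with numerator and denominator prime to `W` -/
lemma approx1 {θ : ℝ} (hθ : Irrational θ) (W : ℕ) (hW : 0 < W) (K : ℕ) :
    ∃ a q : ℤ, (K : ℤ) < q ∧ IsCoprime a q ∧ IsCoprime q (W : ℤ) ∧ IsCoprime a (W : ℤ) ∧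
      |θ * q - a| ≤ 6 * W ^ 2 / q := by
  obtain ⟨δ, hδ, hgap⟩ := irr_gap hθ K
  obtain ⟨K₁, hK₁⟩ := exists_nat_gt (3 * W / δ)
  obtain ⟨a₀, q₀, hK, hcop, herr⟩ := approx0 hθ K₁
  have hq₀ : 0 < q₀ := by omega
  obtain ⟨a', q', hq'0, hq'1, hdet⟩ := bez a₀ q₀ hq₀ hcop
  have hWz : (0 : ℤ) < W := by exact_mod_cast hW
  obtain ⟨x, hx1, hx2, ⟨x', hx'⟩⟩ : ∃ x : ℤ, 1 ≤ x ∧ x ≤ W ∧ (W : ℤ) ∣ x - (a₀ - q₀) := by
    refine ⟨(a₀ - q₀ - 1) % W + 1, ?_, ?_, ⟨-((a₀ - q₀ - 1) / W), ?_⟩⟩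
    · have := Int.emod_nonneg (a₀ - q₀ - 1) hWz.ne'
      omega
    · have := Int.emod_lt_of_pos (a₀ - q₀ - 1) hWz
      omega
    · have h1 := Int.emod_add_mul_ediv (a₀ - q₀ - 1) W
      linarith
  obtain ⟨y, hy1, hy2, ⟨y', hy'⟩⟩ : ∃ y : ℤ, 1 ≤ y ∧ y ≤ W ∧ (W : ℤ) ∣ y - (q' - a') := by
    refine ⟨(q' - a' - 1) % W + 1, ?_, ?_, ⟨-((q' - a' - 1) / W), ?_⟩⟩
    · have := Int.emod_nonneg (q' - a' - 1) hWz.ne'
      omega
    · have := Int.emod_lt_of_pos (q' - a' - 1) hWz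
      omega
    · have h1 := Int.emod_add_mul_ediv (q' - a' - 1) W
      linarith
  have hQ1 : ∃ u, x * q' + y * q₀ = 1 + W * u := ⟨x' * q' + y' * q₀, by
    linear_combination q' * hx' + q₀ * hy' + hdet⟩
  have hA1 : ∃ u, x * a' + y * a₀ = 1 + W * u := ⟨x' * a' + y' * a₀, by
    linear_combination a' * hx' + a₀ * hy' + hdet⟩
  set Q := x * q' + y * q₀ with hQ
  set A := x * a' + y * a₀ with hA
  have hQq : q₀ ≤ Q := by
    rw [hQ]
    nlinarith
  have hQle : Q ≤ 2 * W * q₀ := by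
    rw [hQ]
    nlinarith [mul_le_mul hx2 hq'1 hq'0.le hWz.le, mul_le_mul_of_nonneg_right hy2 hq₀.le]
  obtain ⟨g, a, q, hg, hcop', ha, hq⟩ := Int.exists_gcd_one'
    (Int.gcd_pos_of_ne_zero_right A (by omega : Q ≠ 0))
  have hgz : (0 : ℤ) < g := by exact_mod_cast hg
  have hq0 : 0 < q := by
    have : 0 < q * g := by rw [← hq]; omega
    exact pos_of_mul_pos_left this hgz.le
  have hcW : IsCoprime q (W : ℤ) := by
    obtain ⟨u, hu⟩ := hQ1
    exact ⟨g, -u, by rw [hq] at hu; linarith⟩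
  have haW : IsCoprime a (W : ℤ) := by
    obtain ⟨u, hu⟩ := hA1
    exact ⟨g, -u, by rw [ha] at hu; linarith⟩
  -- the error
  have hq₀r : (0 : ℝ) < q₀ := by exact_mod_cast hq₀
  have hq'r : (0 : ℝ) < q' := by exact_mod_cast hq'0
  have hq'le : (q' : ℝ) ≤ q₀ := by exact_mod_cast hq'1
  have hdetr : (a₀ : ℝ) * q' - a' * q₀ = 1 := by exact_mod_cast hdet
  have herr' : |θ * q' - a'| ≤ 2 / q₀ := by
    have h1 : θ * q' - a' = ((q' : ℝ) / q₀) * (θ * q₀ - a₀) + 1 / q₀ := by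
      field_simp
      linarith
    rw [h1]
    refine (abs_add_le _ _).trans ?_
    rw [abs_mul, abs_of_pos (by positivity : (0:ℝ) < (q' : ℝ) / q₀),
      abs_of_pos (by positivity : (0:ℝ) < 1 / (q₀ : ℝ))]
    have h2 : (q' : ℝ) / q₀ ≤ 1 := (div_le_one hq₀r).2 hq'le
    have h3 : (q' : ℝ) / q₀ * |θ * q₀ - a₀| ≤ 1 * (1 / q₀) :=
      mul_le_mul h2 herr (abs_nonneg _) zero_le_one
    calc (q' : ℝ) / q₀ * |θ * q₀ - a₀| + 1 / q₀ ≤ 1 * (1 / q₀) + 1 / q₀ := by linarith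
      _ = 2 / q₀ := by ring
  have hxr : (1 : ℝ) ≤ x := by exact_mod_cast hx1
  have hyr : (1 : ℝ) ≤ y := by exact_mod_cast hy1
  have hxW : (x : ℝ) ≤ W := by exact_mod_cast hx2
  have hyW : (y : ℝ) ≤ W := by exact_mod_cast hy2
  have hWr : (1 : ℝ) ≤ W := by exact_mod_cast hW
  have hE : |θ * Q - A| ≤ 3 * W / q₀ := by
    have h1 : θ * Q - A = x * (θ * q' - a') + y * (θ * q₀ - a₀) := by
      rw [hQ, hA]; push_cast; ring
    rw [h1]
    refine (abs_add_le _ _).trans ?_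
    rw [abs_mul, abs_mul, abs_of_pos (by linarith : (0:ℝ) < x), abs_of_pos (by linarith : (0:ℝ) < y)]
    calc (x : ℝ) * |θ * q' - a'| + y * |θ * q₀ - a₀| ≤ W * (2 / q₀) + W * (1 / q₀) := by
          gcongr
      _ = 3 * W / q₀ := by ring
  have hg1 : (1 : ℝ) ≤ g := by exact_mod_cast hg
  have hqr : (0 : ℝ) < q := by exact_mod_cast hq0
  have hQr : (Q : ℝ) = q * g := by exact_mod_cast hq
  have hAr : (A : ℝ) = a * g := by exact_mod_cast ha
  have hE2 : |θ * q - a| = |θ * Q - A| / g := by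
    have h1 : θ * Q - A = (θ * q - a) * g := by rw [hQr, hAr]; ring
    rw [h1, abs_mul, abs_of_pos (by positivity : (0:ℝ) < (g : ℝ))]
    field_simp
  have hE3 : |θ * q - a| ≤ 3 * W / q₀ := by
    rw [hE2]
    exact (div_le_self (abs_nonneg _) hg1).trans hE
  refine ⟨a, q, ?_, Int.isCoprime_iff_gcd_eq_one.2 hcop', hcW, haW, ?_⟩
  · by_contra hc
    push Not at hc
    have h1 := hgap q hq0 hc a
    have h2 : (K₁ : ℝ) < q₀ := by exact_mod_cast hK
    have h3 : 3 * (W : ℝ) / q₀ < δ := by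
      rw [div_lt_iff₀ hδ] at hK₁
      rw [div_lt_iff₀ hq₀r]
      nlinarith
    linarith
  · rw [hE2]
    have h1 : (q : ℝ) * g ≤ 2 * W * q₀ := by
      rw [← hQr]
      exact_mod_cast hQle
    calc |θ * Q - A| / g ≤ 3 * W / q₀ / g := by gcongr
      _ ≤ 6 * W ^ 2 / q := by
        rw [div_div, div_le_div_iff₀ (by positivity) hqr]
        have h2 : (q : ℝ) ≤ q * g := by nlinarith
        have h3 : (q : ℝ) ≤ 2 * W * q₀ := h2.trans h1
        calc 3 * (W : ℝ) * q ≤ 3 * W * (2 * W * q₀) := by gcongr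
          _ = 6 * W ^ 2 * q₀ * 1 := by ring
          _ ≤ 6 * W ^ 2 * q₀ * g := by gcongr
          _ = 6 * W ^ 2 * (q₀ * g) := by ring

/-- the one parameter family of denominators -/
lemma family {θ : ℝ} (W : ℕ) (hW : 0 < W) (a q : ℤ) (hq : 0 < q) (hcop : IsCoprime a q)
    (hqW : IsCoprime q (W : ℤ)) (haW : IsCoprime a (W : ℤ)) (C : ℝ) (hC : 0 ≤ C)
    (herr : |θ * q - a| ≤ C / q) :
    ∃ A Q : ℕ → ℤ, (∀ j, IsCoprime (A j) (Q j) ∧ IsCoprime (Q j) (W : ℤ) ∧
      IsCoprime (A j) (W : ℤ) ∧ q ≤ Q j ∧ Q j ≤ (1 + j * W) * q ∧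
      |θ * Q j - A j| ≤ (C + 1) * (1 + j * W) / q) ∧
      ∀ (r : ℤ) (j j' : ℕ), r ∣ Q j → r ∣ Q j' → r ∣ (j : ℤ) - j' := by
  obtain ⟨a', q', hq'0, hq'1, hdet⟩ := bez a q hq hcop
  have hcopj : ∀ j : ℕ, IsCoprime (q + j * W * q') (W : ℤ) := fun j => by
    have := IsCoprime.add_mul_left_left hqW ((j : ℤ) * q')
    rwa [show q + (W : ℤ) * ((j : ℤ) * q') = q + j * W * q' by ring] at this
  have hdetj : ∀ j : ℕ, (a + j * W * a') * q' - a' * (q + j * W * q') = 1 := fun j => by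
    linear_combination hdet
  have hqr : (0 : ℝ) < q := by exact_mod_cast hq
  have hq'r : (0 : ℝ) < q' := by exact_mod_cast hq'0
  have hq'le : (q' : ℝ) ≤ q := by exact_mod_cast hq'1
  have hdetr : (a : ℝ) * q' - a' * q = 1 := by exact_mod_cast hdet
  have herr' : |θ * q' - a'| ≤ (C + 1) / q := by
    have h1 : θ * q' - a' = ((q' : ℝ) / q) * (θ * q - a) + 1 / q := by
      field_simp
      linarith
    rw [h1]
    refine (abs_add_le _ _).trans ?_
    rw [abs_mul, abs_of_pos (by positivity : (0:ℝ) < (q' : ℝ) / q),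
      abs_of_pos (by positivity : (0:ℝ) < 1 / (q : ℝ))]
    have h2 : (q' : ℝ) / q ≤ 1 := (div_le_one hqr).2 hq'le
    have h3 : (q' : ℝ) / q * |θ * q - a| ≤ 1 * (C / q) :=
      mul_le_mul h2 herr (abs_nonneg _) zero_le_one
    calc (q' : ℝ) / q * |θ * q - a| + 1 / q ≤ 1 * (C / q) + 1 / q := by linarith
      _ = (C + 1) / q := by ring
  refine ⟨fun j => a + j * W * a', fun j => q + j * W * q', fun j => ⟨?_, hcopj j, ?_, ?_, ?_, ?_⟩,
    fun r j j' h1 h2 => ?_⟩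
  · exact ⟨q', -a', by linear_combination hdetj j⟩
  · have := IsCoprime.add_mul_left_left haW ((j : ℤ) * a')
    rwa [show a + (W : ℤ) * ((j : ℤ) * a') = a + j * W * a' by ring] at this
  · have : (0 : ℤ) ≤ j * W * q' := by positivity
    simp only
    linarith
  · have h1 : (j : ℤ) * W * q' ≤ j * W * q := by gcongr
    simp only
    linarith
  · have h1 : θ * ((q + j * W * q' : ℤ) : ℝ) - ((a + j * W * a' : ℤ) : ℝ)
        = (θ * q - a) + j * W * (θ * q' - a') := by push_cast; ring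
    simp only
    rw [h1]
    refine (abs_add_le _ _).trans ?_
    rw [abs_mul, abs_of_nonneg (by positivity : (0:ℝ) ≤ (j : ℝ) * W)]
    calc |θ * q - a| + j * W * |θ * q' - a'| ≤ C / q + j * W * ((C + 1) / q) := by gcongr
      _ ≤ (C + 1) / q + j * W * ((C + 1) / q) := by gcongr; linarith
      _ = (C + 1) * (1 + j * W) / q := by ring
  · have h3 : IsCoprime r (W : ℤ) := by
      obtain ⟨k, hk⟩ := h1
      have := hcopj j
      rw [show q + j * W * q' = r * k from hk] at this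
      exact this.of_mul_left_left
    have h4 : IsCoprime r q' := by
      obtain ⟨k, hk⟩ := h1
      have hd := hdetj j
      rw [show q + j * W * q' = r * k from hk] at hd
      exact ⟨-a' * k, a + j * W * a', by linear_combination hd⟩
    have h5 : r ∣ ((j : ℤ) - j') * (W * q') := by
      have := dvd_sub h1 h2
      rwa [show (q + j * W * q') - (q + j' * W * q') = ((j : ℤ) - j') * (W * q') by ring] at this
    exact (h3.mul_right h4).dvd_of_dvd_mul_right h5

end Pool.Agent.QHalf
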