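import Mathlib
import Pool.Agent.Lib.ANT.DivBound

/-!
# QHalf, module Div: the divisor bound in the form used (helper36)
-/

set_option autoImplicit false

namespace Pool.Agent.QHalf

open Filter Topology

/-- `k τ(n)^k ≤ z` for all `n ≤ z^M` and `z` large -/
lemma div_bound (M k : ℕ) : ∃ z₀ : ℕ, 1 ≤ z₀ ∧ ∀ z : ℕ, z₀ ≤ z → ∀ n : ℕ, n ≠ 0 → n ≤ z ^ M →
    k * n.divisors.card ^ k ≤ z := by
  obtain ⟨C, hC, h⟩ := Pool.Agent.ANT.tauR_le_rpow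
    (ε := 1 / (2 * ((M:ℝ) * k + 1))) (by positivity)
  have h2 : Tendsto (fun z : ℕ => ((z:ℝ)) ^ ((1:ℝ) / 2)) atTop atTop :=
    (tendsto_rpow_atTop (by norm_num)).comp tendsto_natCast_atTop_atTop
  obtain ⟨z₀, hz₀⟩ := (h2.eventually_ge_atTop (k * C ^ k)).exists_forall_of_atTop
  refine ⟨max z₀ 1, le_max_right _ _, fun z hz n hn hnz => ?_⟩
  have hz1 : 1 ≤ z := (le_max_right _ _).trans hz
  have hz0 : (0:ℝ) < z := by exact_mod_cast hz1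
  have hz1' : (1:ℝ) ≤ z := by exact_mod_cast hz1
  have h3 := h n hn
  unfold Pool.Agent.ANT.tauR at h3
  have h4 : (n:ℝ) ^ ((1:ℝ) / (2 * ((M:ℝ) * k + 1))) ≤
      (z:ℝ) ^ ((M:ℝ) * (1 / (2 * ((M:ℝ) * k + 1)))) := by
    rw [Real.rpow_mul hz0.le, Real.rpow_natCast]
    exact Real.rpow_le_rpow (by positivity) (by exact_mod_cast hnz) (by positivity)
  have h5 : ((n.divisors.card : ℝ)) ^ k ≤
      C ^ k * (z:ℝ) ^ ((1:ℝ) / 2) := by
    calc ((n.divisors.card : ℝ)) ^ k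
        ≤ (C * (z:ℝ) ^ ((M:ℝ) * (1 / (2 * ((M:ℝ) * k + 1))))) ^ k := by
          gcongr
          exact h3.trans (by gcongr)
      _ = C ^ k * (z:ℝ) ^ ((M:ℝ) * (1 / (2 * ((M:ℝ) * k + 1))) * k) := by
          rw [mul_pow, Real.rpow_mul hz0.le _ (k:ℝ), Real.rpow_natCast]
      _ ≤ C ^ k * (z:ℝ) ^ ((1:ℝ) / 2) := by
          have hC0 : (0:ℝ) ≤ C ^ k := by positivity
          refine mul_le_mul_of_nonneg_left ?_ hC0
          refine Real.rpow_le_rpow_of_exponent_le hz1' ?_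
          rw [mul_one_div, div_mul_eq_mul_div, div_le_div_iff₀ (by positivity) (by norm_num)]
          nlinarith [show (0:ℝ) ≤ (M:ℝ) * k from by positivity]
  have h6 := hz₀ z ((le_max_left _ _).trans hz)
  have h7 : (z:ℝ) ^ ((1:ℝ) / 2) * (z:ℝ) ^ ((1:ℝ) / 2) = z := by
    rw [← Real.rpow_add hz0]; norm_num
  have h8 : ((k * n.divisors.card ^ k : ℕ) : ℝ) ≤ z := by
    push_cast
    calc (k:ℝ) * (n.divisors.card : ℝ) ^ k ≤ k * (C ^ k * (z:ℝ) ^ ((1:ℝ) / 2)) := by gcongr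
      _ = (k * C ^ k) * (z:ℝ) ^ ((1:ℝ) / 2) := by ring
      _ ≤ (z:ℝ) ^ ((1:ℝ) / 2) * (z:ℝ) ^ ((1:ℝ) / 2) := by gcongr
      _ = z := h7
  exact_mod_cast h8

end Pool.Agent.QHalf
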