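import Mathlib

/-!
# QHalf, module Jac: incomplete sums of Jacobi symbols, trivial bound (helper36)
-/

set_option autoImplicit false

namespace Pool.Agent.QHalf

open Finset

/-- sum of the Jacobi symbols `(b | d)` over `1 ≤ b ≤ t`, `b ≡ c` modulo `M` -/
def S (d M c t : ℕ) : ℤ :=
  ∑ b ∈ (Finset.Icc 1 t).filter (fun b => b % M = c % M), jacobiSym b d

lemma periodic_sum_bound (f : ℕ → ℤ) (L : ℕ) (hL : 0 < L) (hper : ∀ n, f (L + n) = f n)
    (hs : ∑ i ∈ range L, f i = 0) (hb : ∀ n, |f n| ≤ 1) (t : ℕ) :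
    |∑ i ∈ range t, f i| ≤ L := by
  induction t using Nat.strong_induction_on with
  | _ t ih =>
    rcases lt_or_ge t L with h | h
    · calc |∑ i ∈ range t, f i| ≤ ∑ i ∈ range t, |f i| := abs_sum_le_sum_abs _ _
        _ ≤ ∑ i ∈ range t, (1 : ℤ) := sum_le_sum fun i _ => hb i
        _ = t := by simp
        _ ≤ L := by exact_mod_cast h.le
    · obtain ⟨t', rfl⟩ := Nat.exists_eq_add_of_le h
      rw [sum_range_add, hs, zero_add]
      simp only [hper]
      exact ih t' (by omega)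

lemma jac_abs_le (a : ℤ) (b : ℕ) : |jacobiSym a b| ≤ 1 := by
  rcases jacobiSym.trichotomy a b with h | h | h <;> rw [h] <;> norm_num

lemma exists_twist {n M p : ℕ} (hodd : Odd n) (hcop : Nat.Coprime n M) (hp : p.Prime)
    (hpn : p ∣ n) (hp2 : ¬ p ^ 2 ∣ n) :
    ∃ x : ℕ, x % M = 1 % M ∧ Nat.Coprime x (n * M) ∧ jacobiSym x n = -1 := by
  haveI : Fact p.Prime := ⟨hp⟩
  obtain ⟨m, rfl⟩ := hpn
  have hpm : Nat.Coprime p m := by
    rw [hp.coprime_iff_not_dvd]
    rintro ⟨k, rfl⟩
    exact hp2 ⟨k, by ring⟩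
  have hp_odd : Odd p := (Nat.odd_mul.1 hodd).1
  have hm_odd : Odd m := (Nat.odd_mul.1 hodd).2
  have hpM : Nat.Coprime p M := Nat.Coprime.coprime_mul_right hcop
  have hchar : ringChar (ZMod p) ≠ 2 := by
    rw [ZMod.ringChar_zmod_n]
    rintro rfl
    exact absurd hp_odd (by decide)
  obtain ⟨r, hr⟩ := FiniteField.exists_nonsquare hchar
  have hr0 : r ≠ 0 := by
    rintro rfl
    exact hr (IsSquare.zero)
  obtain ⟨x, hx1, hx2⟩ := Nat.chineseRemainder (Nat.Coprime.mul_right hpm hpM) r.val 1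
  have hxr : ((x : ℕ) : ZMod p) = r := by
    have := (ZMod.natCast_eq_natCast_iff x r.val p).2 hx1
    rw [this, ZMod.natCast_val, ZMod.cast_id]
  have hxm : x % m = 1 % m := (Nat.ModEq.of_mul_right M hx2)
  have hxM : x % M = 1 % M := (Nat.ModEq.of_mul_left m hx2)
  refine ⟨x, hxM, ?_, ?_⟩
  · have h1 : Nat.Coprime x p := by
      rw [Nat.coprime_comm, hp.coprime_iff_not_dvd]
      intro hd
      apply hr0
      rw [← hxr]
      exact (ZMod.natCast_eq_zero_iff x p).2 hd
    have h2 : Nat.Coprime x (m * M) := by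
      have := Nat.ModEq.gcd_eq hx2
      rw [Nat.gcd_one_left] at this
      exact this
    have h3 := Nat.Coprime.mul_right h1 h2
    rwa [← mul_assoc] at h3
  · haveI : NeZero p := ⟨hp.ne_zero⟩
    haveI : NeZero m := ⟨by rintro rfl; exact absurd hm_odd (by decide)⟩
    rw [jacobiSym.mul_right]
    have h1 : jacobiSym x p = -1 := by
      refine (ZMod.nonsquare_iff_jacobiSym_eq_neg_one (p := p)).2 ?_
      rw [Int.cast_natCast, hxr]
      exact hr
    have h2 : jacobiSym x m = 1 := by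
      rw [jacobiSym.mod_left' (a₂ := 1) (by exact_mod_cast hxm), jacobiSym.one_left]
    rw [h1, h2]
    norm_num

/-- the trivial bound -/
lemma S_bound {n M p : ℕ} (hM : 0 < M) (hodd : Odd n) (hcop : Nat.Coprime n M) (hp : p.Prime)
    (hpn : p ∣ n) (hp2 : ¬ p ^ 2 ∣ n) (c t : ℕ) : |S n M c t| ≤ (n * M : ℕ) := by
  obtain ⟨x, hxM, hxc, hxj⟩ := exists_twist hodd hcop hp hpn hp2
  have hn1 : 1 < n := lt_of_lt_of_le hp.one_lt (Nat.le_of_dvd (hodd.pos) hpn)
  have hL : 0 < n * M := Nat.mul_pos (by omega) hM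
  set f : ℕ → ℤ := fun b => if b % M = c % M then jacobiSym b n else 0 with hf
  have hf0 : f 0 = 0 := by
    simp only [hf]
    split_ifs
    · exact jacobiSym.zero_left hn1
    · rfl
  have hS : S n M c t = ∑ i ∈ range (t + 1), f i := by
    unfold S
    rw [sum_filter]
    have h1 : range (t + 1) = insert 0 (Icc 1 t) := by
      ext b
      simp only [mem_range, mem_insert, mem_Icc]
      omega
    rw [h1, sum_insert (by simp), hf0, zero_add]
  have hfm : ∀ b, f (b % (n * M)) = f b := by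
    intro b
    simp only [hf]
    rw [Nat.mod_mul_left_mod]
    have h1 : jacobiSym ((b % (n * M) : ℕ) : ℤ) n = jacobiSym (b : ℤ) n := by
      apply jacobiSym.mod_left'
      have := Nat.mod_mul_right_mod b n M
      exact_mod_cast this
    rw [h1]
  have hper : ∀ b, f (n * M + b) = f b := by
    intro b
    rw [← hfm (n * M + b), Nat.add_mod_left, hfm]
  have hfx : ∀ b, f (x * b % (n * M)) = - f b := by
    intro b
    rw [hfm]
    simp only [hf]
    have h1 : x * b % M = b % M := by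
      rw [Nat.mul_mod, hxM, ← Nat.mul_mod, one_mul]
    rw [h1]
    push_cast
    rw [jacobiSym.mul_left, hxj]
    split_ifs <;> ring
  have hinj : Set.InjOn (fun b => x * b % (n * M)) (range (n * M) : Set ℕ) := by
    intro b hb b' hb' hbb
    rw [coe_range, Set.mem_Iio] at hb hb'
    have h1 : x * b ≡ x * b' [MOD (n * M)] := hbb
    have h2 := Nat.ModEq.cancel_left_of_coprime (by
      rw [← Nat.coprime_iff_gcd_eq_one]; exact hxc.symm) h1
    exact Nat.ModEq.eq_of_lt_of_lt h2 hb hb'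
  have himg : (range (n * M)).image (fun b => x * b % (n * M)) = range (n * M) := by
    apply eq_of_subset_of_card_le
    · intro y hy
      rw [mem_image] at hy
      obtain ⟨b, -, rfl⟩ := hy
      exact mem_range.2 (Nat.mod_lt _ hL)
    · rw [card_image_of_injOn hinj]
  have hs : ∑ i ∈ range (n * M), f i = 0 := by
    have h1 : ∑ i ∈ range (n * M), f i = ∑ b ∈ range (n * M), f (x * b % (n * M)) := by
      conv_lhs => rw [← himg]
      rw [sum_image hinj]
    simp only [hfx, sum_neg_distrib] at h1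
    omega
  rw [hS]
  exact periodic_sum_bound f (n * M) hL hper hs (fun b => by
    simp only [hf]
    split_ifs
    · exact jac_abs_le _ _
    · norm_num) _

/-- squarefree `n > 1` -/
lemma S_bound_sf {n M : ℕ} (hM : 0 < M) (hodd : Odd n) (hcop : Nat.Coprime n M)
    (hsf : Squarefree n) (hn : n ≠ 1) (c t : ℕ) : |S n M c t| ≤ (n * M : ℕ) := by
  obtain ⟨p, hp, hpn⟩ := Nat.exists_prime_and_dvd hn
  refine S_bound hM hodd hcop hp hpn (fun h => ?_) c t
  rw [sq] at h
  exact hp.one_lt.ne' (Nat.isUnit_iff.1 (hsf p h))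

/-- a product of two different squarefree numbers -/
lemma S_bound_mul {d d' M : ℕ} (hM : 0 < M) (hodd : Odd d) (hodd' : Odd d')
    (hcop : Nat.Coprime d M) (hcop' : Nat.Coprime d' M)
    (hsf : Squarefree d) (hsf' : Squarefree d') (hdd : d ≠ d') (c t : ℕ) :
    |S (d * d') M c t| ≤ (d * d' * M : ℕ) := by
  have key : ∃ p : ℕ, p.Prime ∧ ((p ∣ d ∧ ¬ p ∣ d') ∨ (p ∣ d' ∧ ¬ p ∣ d)) := by
    by_contra hcon
    push Not at hcon
    apply hdd
    rw [← Nat.prod_primeFactors_of_squarefree hsf, ← Nat.prod_primeFactors_of_squarefree hsf']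
    congr 1
    ext p
    rw [Nat.mem_primeFactors, Nat.mem_primeFactors]
    constructor
    · rintro ⟨h1, h2, -⟩
      exact ⟨h1, (hcon p h1).1 h2, hodd'.pos.ne'⟩
    · rintro ⟨h1, h2, -⟩
      exact ⟨h1, (hcon p h1).2 h2, hodd.pos.ne'⟩
  obtain ⟨p, hp, h⟩ := key
  refine S_bound hM (hodd.mul hodd') (Nat.Coprime.mul_left hcop hcop') hp ?_ (fun h2 => ?_) c t
  · rcases h with h | h
    · exact Dvd.dvd.mul_right h.1 _
    · exact Dvd.dvd.mul_left h.1 _
  · rcases h with h | h
    · have h3 : p ^ 2 ∣ d := by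
        refine (Nat.Coprime.dvd_of_dvd_mul_right ?_ h2)
        exact Nat.Coprime.pow_left 2 ((hp.coprime_iff_not_dvd).2 h.2)
      rw [sq] at h3
      exact hp.one_lt.ne' (Nat.isUnit_iff.1 (hsf p h3))
    · have h3 : p ^ 2 ∣ d' := by
        refine (Nat.Coprime.dvd_of_dvd_mul_left ?_ h2)
        exact Nat.Coprime.pow_left 2 ((hp.coprime_iff_not_dvd).2 h.2)
      rw [sq] at h3
      exact hp.one_lt.ne' (Nat.isUnit_iff.1 (hsf' p h3))

end Pool.Agent.QHalf
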