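import Mathlib
import Pool.Agent.QHalf.Jac

/-!
# QHalf, module Dual: few moduli with a large incomplete character sum (helper36)
-/

set_option autoImplicit false

namespace Pool.Agent.QHalf

open Finset

/-- the number of ordered factorisations -/
lemma card_fiber_le (T : Finset ℕ) (l n : ℕ) (hn : n ≠ 0) :
    ((Fintype.piFinset (fun _ : Fin l => T)).filter (fun f => ∏ i, f i = n)).card
      ≤ n.divisors.card ^ l := by
  have h : ((Fintype.piFinset (fun _ : Fin l => T)).filter (fun f => ∏ i, f i = n)) ⊆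
      Fintype.piFinset (fun _ : Fin l => n.divisors) := by
    intro f hf
    rw [mem_filter] at hf
    rw [Fintype.mem_piFinset]
    intro i
    rw [Nat.mem_divisors]
    exact ⟨hf.2 ▸ dvd_prod_of_mem f (mem_univ i), hn⟩
  refine (card_le_card h).trans ?_
  rw [Fintype.card_piFinset]
  simp

lemma sum_pow_eq (T : Finset ℕ) (l d : ℕ) :
    (∑ b ∈ T, jacobiSym b d) ^ l
      = ∑ f ∈ Fintype.piFinset (fun _ : Fin l => T), jacobiSym ((∏ i, f i : ℕ) : ℤ) d := by
  have h1 : (∑ b ∈ T, jacobiSym b d) ^ l = ∏ _i : Fin l, ∑ b ∈ T, jacobiSym b d := by simp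
  rw [h1, prod_univ_sum]
  refine sum_congr rfl fun f _ => ?_
  have h2 : ∀ (s : Finset (Fin l)), ∏ i ∈ s, jacobiSym (f i : ℤ) d
      = jacobiSym ((∏ i ∈ s, f i : ℕ) : ℤ) d := by
    intro s
    induction s using Finset.induction_on with
    | empty => simp
    | insert a s ha ih =>
      rw [prod_insert ha, prod_insert ha, ih]
      push_cast
      rw [jacobiSym.mul_left]
  exact h2 univ

/-- the duality bound -/
lemma dual_bound (D T : Finset ℕ) (B X A V l : ℕ) (hT : T ⊆ Icc 1 B)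
    (hD : ∀ d ∈ D, Odd d ∧ Squarefree d ∧ d ≤ X)
    (hA : ∀ n : ℕ, n ≠ 0 → n ≤ B ^ l → n.divisors.card ^ l ≤ A)
    (hV : ∀ d ∈ D, (V : ℤ) ≤ |∑ b ∈ T, jacobiSym b d|) :
    D.card ^ 2 * V ^ (2 * l) ≤ B ^ l * A * (D.card * B ^ l + D.card ^ 2 * X ^ 2) := by
  set s : ℕ → ℤ := fun d => SignType.sign ((∑ b ∈ T, jacobiSym b d) ^ l) with hs
  have hs1 : ∀ d, s d * (∑ b ∈ T, jacobiSym b d) ^ l = |∑ b ∈ T, jacobiSym b d| ^ l := by
    intro d
    rw [hs, ← abs_pow]
    exact sign_mul_self _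
  have hs2 : ∀ d, |s d| ≤ 1 := by
    intro d
    simp only [hs]
    rcases SignType.sign ((∑ b ∈ T, jacobiSym b d) ^ l) with _ | _ | _ <;> simp
  set G : ℕ → ℤ := fun n => ∑ d ∈ D, s d * jacobiSym n d with hG
  set P := Fintype.piFinset (fun _ : Fin l => T) with hP
  have hPcard : (P.card : ℤ) ≤ (B : ℤ) ^ l := by
    rw [hP, Fintype.card_piFinset]
    simp only [prod_const, card_univ, Fintype.card_fin]
    have h1 : T.card ≤ B := by
      have := card_le_card hT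
      simpa using this
    exact_mod_cast Nat.pow_le_pow_left h1 l
  have h1 : (D.card : ℤ) * (V : ℤ) ^ l ≤ ∑ f ∈ P, G (∏ i, f i) := by
    calc (D.card : ℤ) * (V : ℤ) ^ l = ∑ _d ∈ D, (V : ℤ) ^ l := by
          rw [sum_const, nsmul_eq_mul]
      _ ≤ ∑ d ∈ D, |∑ b ∈ T, jacobiSym b d| ^ l := by
          refine sum_le_sum fun d hd => ?_
          exact pow_le_pow_left₀ (by positivity) (hV d hd) l
      _ = ∑ d ∈ D, s d * (∑ b ∈ T, jacobiSym b d) ^ l := sum_congr rfl fun d _ => (hs1 d).symm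
      _ = ∑ d ∈ D, ∑ f ∈ P, s d * jacobiSym ((∏ i, f i : ℕ) : ℤ) d := by
          refine sum_congr rfl fun d _ => ?_
          rw [sum_pow_eq, mul_sum]
      _ = ∑ f ∈ P, G (∏ i, f i) := by
          rw [sum_comm]
  have h2 : (∑ f ∈ P, G (∏ i, f i)) ^ 2 ≤ (P.card : ℤ) * ∑ f ∈ P, G (∏ i, f i) ^ 2 :=
    sq_sum_le_card_mul_sum_sq
  have hmaps : ∀ f ∈ P, ∏ i, f i ∈ Icc 1 (B ^ l) := by
    intro f hf
    rw [hP, Fintype.mem_piFinset] at hf
    have h3 : ∀ i, 1 ≤ f i ∧ f i ≤ B := fun i => mem_Icc.1 (hT (hf i))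
    rw [mem_Icc]
    constructor
    · exact Nat.one_le_iff_ne_zero.2 (prod_ne_zero_iff.2 fun i _ => by have := (h3 i).1; omega)
    · calc ∏ i, f i ≤ ∏ _i : Fin l, B := prod_le_prod' fun i _ => (h3 i).2
        _ = B ^ l := by simp
  have h3 : ∑ f ∈ P, G (∏ i, f i) ^ 2 ≤ (A : ℤ) * ∑ n ∈ Icc 1 (B ^ l), G n ^ 2 := by
    rw [← sum_fiberwise_of_maps_to hmaps, mul_sum]
    refine sum_le_sum fun n hn => ?_
    rw [mem_Icc] at hn
    have h4 : ∑ f ∈ P.filter (fun f => ∏ i, f i = n), G (∏ i, f i) ^ 2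
        = ((P.filter (fun f => ∏ i, f i = n)).card : ℤ) * G n ^ 2 := by
      rw [sum_congr rfl (g := fun _ => G n ^ 2) (fun f hf => by rw [(mem_filter.1 hf).2]),
        sum_const, nsmul_eq_mul]
    rw [h4]
    have h5 : (P.filter (fun f => ∏ i, f i = n)).card ≤ A :=
      (card_fiber_le T l n (by omega)).trans (hA n (by omega) hn.2)
    exact mul_le_mul_of_nonneg_right (by exact_mod_cast h5) (sq_nonneg _)
  have h4 : ∑ n ∈ Icc 1 (B ^ l), G n ^ 2
      ≤ (D.card : ℤ) * (B : ℤ) ^ l + (D.card : ℤ) ^ 2 * (X : ℤ) ^ 2 := by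
    have e1 : ∀ n : ℕ, G n ^ 2 = ∑ d ∈ D, ∑ d' ∈ D, s d * s d' * jacobiSym n (d * d') := by
      intro n
      rw [sq, hG]
      simp only
      rw [sum_mul_sum]
      refine sum_congr rfl fun d hd => sum_congr rfl fun d' hd' => ?_
      rw [jacobiSym.mul_right' _ (hD d hd).1.pos.ne' (hD d' hd').1.pos.ne']
      ring
    have e2 : ∑ n ∈ Icc 1 (B ^ l), G n ^ 2
        = ∑ d ∈ D, ∑ d' ∈ D, s d * s d' * ∑ n ∈ Icc 1 (B ^ l), jacobiSym n (d * d') := by
      rw [sum_congr rfl fun n _ => e1 n, sum_comm]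
      refine sum_congr rfl fun d _ => ?_
      rw [sum_comm]
      refine sum_congr rfl fun d' _ => ?_
      rw [mul_sum]
    rw [e2]
    have e3 : ∀ d ∈ D, ∀ d' ∈ D, s d * s d' * ∑ n ∈ Icc 1 (B ^ l), jacobiSym n (d * d')
        ≤ (if d = d' then (B : ℤ) ^ l else 0) + (X : ℤ) ^ 2 := by
      intro d hd d' hd'
      have hss : |s d * s d'| ≤ 1 := by
        rw [abs_mul]
        exact mul_le_one₀ (hs2 d) (abs_nonneg _) (hs2 d')
      have hle : s d * s d' * ∑ n ∈ Icc 1 (B ^ l), jacobiSym n (d * d')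
          ≤ |∑ n ∈ Icc 1 (B ^ l), jacobiSym n (d * d')| := by
        refine (le_abs_self _).trans ?_
        rw [abs_mul]
        exact mul_le_of_le_one_left (abs_nonneg _) hss
      refine hle.trans ?_
      split_ifs with h
      · have : |∑ n ∈ Icc 1 (B ^ l), jacobiSym n (d * d')| ≤ (B : ℤ) ^ l := by
          refine (abs_sum_le_sum_abs _ _).trans ?_
          refine (sum_le_sum fun n _ => jac_abs_le _ _).trans ?_
          simp
        have h0 : (0 : ℤ) ≤ (X : ℤ) ^ 2 := by positivity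
        linarith
      · have h5 := S_bound_mul (M := 1) (by norm_num) (hD d hd).1 (hD d' hd').1
          (Nat.coprime_one_right _) (Nat.coprime_one_right _) (hD d hd).2.1 (hD d' hd').2.1 h 0
          (B ^ l)
        have h6 : S (d * d') 1 0 (B ^ l) = ∑ n ∈ Icc 1 (B ^ l), jacobiSym n (d * d') := by
          unfold S
          rw [filter_true_of_mem]
          intro x _
          omega
        rw [h6] at h5
        refine h5.trans ?_
        have h7 : d * d' * 1 ≤ X ^ 2 := by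
          rw [mul_one, sq]
          exact Nat.mul_le_mul (hD d hd).2.2 (hD d' hd').2.2
        rw [zero_add]
        exact_mod_cast h7
    refine (sum_le_sum fun d hd => sum_le_sum fun d' hd' => e3 d hd d' hd').trans ?_
    have e4 : ∀ d ∈ D, ∑ d' ∈ D, ((if d = d' then (B : ℤ) ^ l else 0) + (X : ℤ) ^ 2)
        = (B : ℤ) ^ l + D.card * (X : ℤ) ^ 2 := by
      intro d hd
      rw [sum_add_distrib, sum_ite_eq, if_pos hd, sum_const, nsmul_eq_mul]
    rw [sum_congr rfl e4, sum_const, nsmul_eq_mul]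
    apply le_of_eq
    ring
  have h5 : ((D.card : ℤ) * (V : ℤ) ^ l) ^ 2
      ≤ (B : ℤ) ^ l * (A * ((D.card : ℤ) * (B : ℤ) ^ l + (D.card : ℤ) ^ 2 * (X : ℤ) ^ 2)) := by
    calc ((D.card : ℤ) * (V : ℤ) ^ l) ^ 2 ≤ (∑ f ∈ P, G (∏ i, f i)) ^ 2 :=
          pow_le_pow_left₀ (by positivity) h1 2
      _ ≤ (P.card : ℤ) * ∑ f ∈ P, G (∏ i, f i) ^ 2 := h2
      _ ≤ (B : ℤ) ^ l * ∑ f ∈ P, G (∏ i, f i) ^ 2 := by
          refine mul_le_mul_of_nonneg_right hPcard (sum_nonneg fun _ _ => sq_nonneg _)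
      _ ≤ (B : ℤ) ^ l * (A * ((D.card : ℤ) * (B : ℤ) ^ l + (D.card : ℤ) ^ 2 * (X : ℤ) ^ 2)) := by
          refine mul_le_mul_of_nonneg_left (h3.trans ?_) (by positivity)
          exact mul_le_mul_of_nonneg_left h4 (by positivity)
  have h6 : ((D.card ^ 2 * V ^ (2 * l) : ℕ) : ℤ)
      ≤ ((B ^ l * A * (D.card * B ^ l + D.card ^ 2 * X ^ 2) : ℕ) : ℤ) := by
    push_cast
    calc (D.card : ℤ) ^ 2 * (V : ℤ) ^ (2 * l) = ((D.card : ℤ) * (V : ℤ) ^ l) ^ 2 := by
          rw [mul_pow, ← pow_mul, mul_comm l 2]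
      _ ≤ _ := h5
      _ = _ := by ring
  exact_mod_cast h6

end Pool.Agent.QHalf
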