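import Mathlib
import Pool.Agent.QHalf.Div
import Pool.Agent.QHalf.Dual

/-!
# QHalf, module Exc: the exceptional moduli are large and few (helper36)
-/

set_option autoImplicit false

namespace Pool.Agent.QHalf

open Finset

/-- exceptional moduli at the level `(z, g)` -/
def Exc (z g d : ℕ) : Prop :=
  Odd d ∧ Squarefree d ∧ d ≠ 1 ∧ ∃ t : ℕ, t ≤ z ^ g ∧ ∃ c : ℕ, c < 8 ∧
    2 * (z ^ (g - 1) : ℤ) ≤ |S d 8 c t|

lemma S_succ (d M c t : ℕ) :
    S d M c (t + 1) = S d M c t + if (t + 1) % M = c % M then jacobiSym (t + 1 : ℕ) d else 0 := by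
  unfold S
  rw [sum_filter, sum_filter, sum_Icc_succ_top (by omega)]

lemma S_diff (d M c t k : ℕ) : |S d M c (t + k) - S d M c t| ≤ k := by
  induction k with
  | zero => simp
  | succ k ih =>
    rw [← add_assoc, S_succ]
    have h1 : |(if (t + k + 1) % M = c % M then jacobiSym (t + k + 1 : ℕ) d else 0)| ≤ 1 := by
      split_ifs
      · exact jac_abs_le _ _
      · norm_num
    generalize (if (t + k + 1) % M = c % M then jacobiSym (t + k + 1 : ℕ) d else 0) = w at h1 ⊢
    rw [abs_le] at h1 ih ⊢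
    push_cast
    constructor <;> linarith [h1.1, h1.2, ih.1, ih.2]

lemma exc_large {z g d : ℕ} (h : Exc z g d) : z ^ (g - 1) ≤ 4 * d := by
  obtain ⟨hodd, hsf, hd1, t, -, c, -, hS⟩ := h
  have h1 := S_bound_sf (M := 8) (by norm_num) hodd (by
    rw [Nat.coprime_comm, show (8:ℕ) = 2 ^ 3 by norm_num]
    exact Nat.Coprime.pow_left 3 ((Nat.coprime_two_left).2 hodd)) hsf hd1 c t
  have h2 : 2 * (z ^ (g - 1) : ℤ) ≤ ((d * 8 : ℕ) : ℤ) := hS.trans h1
  have h3 : 2 * z ^ (g - 1) ≤ d * 8 := by exact_mod_cast h2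
  omega

lemma exc_count_one (h z l g : ℕ) (hl : l = 2 * h + 6) (hg : g = 3 * l + 5) (hz : 2 ≤ z)
    (hdiv : ∀ n : ℕ, n ≠ 0 → n ≤ z ^ (g * l) → n.divisors.card ≤ z)
    (D : Finset ℕ) (hD : ∀ d ∈ D, Odd d ∧ Squarefree d ∧ d ≤ z ^ (g * h + g + 3)) (i c : ℕ)
    (hi : i ≤ z) (hV : ∀ d ∈ D, (z ^ (g - 1) : ℤ) ≤ |S d 8 c (i * z ^ (g - 1))|) :
    D.card ≤ 2 * z ^ (3 * l) := by
  have hg1 : 1 ≤ g := by omega
  have hzg : z * z ^ (g - 1) = z ^ g := by
    rw [← pow_succ']
    congr 1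
    omega
  have h1 := dual_bound D ((Finset.Icc 1 (i * z ^ (g - 1))).filter (fun b => b % 8 = c % 8))
    (z ^ g) (z ^ (g * h + g + 3)) (z ^ l) (z ^ (g - 1)) l
    (by
      intro b hb
      rw [mem_filter, mem_Icc] at hb
      rw [mem_Icc]
      refine ⟨hb.1.1, hb.1.2.trans ?_⟩
      rw [← hzg]
      exact Nat.mul_le_mul_right _ hi)
    hD
    (by
      intro n hn hnB
      rw [← pow_mul] at hnB
      exact Nat.pow_le_pow_left (hdiv n hn hnB) l)
    (by
      intro d hd
      have := hV d hd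
      unfold S at this
      push_cast
      exact this)
  rcases Nat.eq_zero_or_pos D.card with h0 | h0
  · rw [h0]; exact Nat.zero_le _
  · have h2 : D.card * z ^ (2 * (g - 1) * l)
        ≤ z ^ (2 * g * l + l) + D.card * z ^ (g * l + l + 2 * (g * h + g + 3)) := by
      have e1 : D.card ^ 2 * (z ^ (g - 1)) ^ (2 * l)
          = D.card * (D.card * z ^ (2 * (g - 1) * l)) := by
        rw [← pow_mul, sq]
        ring_nf
      have e2 : (z ^ g) ^ l * z ^ l * (D.card * (z ^ g) ^ l + D.card ^ 2 * (z ^ (g * h + g + 3)) ^ 2)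
          = D.card * (z ^ (2 * g * l + l) + D.card * z ^ (g * l + l + 2 * (g * h + g + 3))) := by
        rw [← pow_mul, ← pow_mul, sq]
        have e3 : z ^ (2 * g * l + l) = z ^ (g * l) * z ^ l * z ^ (g * l) := by
          rw [← pow_add, ← pow_add]; congr 1; ring
        have e4 : z ^ (g * l + l + 2 * (g * h + g + 3))
            = z ^ (g * l) * z ^ l * z ^ ((g * h + g + 3) * 2) := by
          rw [← pow_add, ← pow_add]; congr 1; ring
        rw [e3, e4]
        ring
      rw [e1, e2] at h1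
      exact Nat.le_of_mul_le_mul_left h1 h0
    have h3 : 2 * z ^ (g * l + l + 2 * (g * h + g + 3)) ≤ z ^ (2 * (g - 1) * l) := by
      calc 2 * z ^ (g * l + l + 2 * (g * h + g + 3))
          ≤ z * z ^ (g * l + l + 2 * (g * h + g + 3)) := Nat.mul_le_mul_right _ hz
        _ = z ^ (g * l + l + 2 * (g * h + g + 3) + 1) := by rw [pow_succ]; ring
        _ ≤ z ^ (2 * (g - 1) * l) := by
            refine Nat.pow_le_pow_right (by omega) ?_
            obtain ⟨g', rfl⟩ : ∃ g', g = g' + 1 := ⟨g - 1, by omega⟩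
            rw [Nat.add_sub_cancel]
            subst hl
            have hg' : g' = 3 * (2 * h + 6) + 4 := by omega
            subst hg'
            ring_nf
            nlinarith [sq_nonneg (h : ℤ)]
    have h4 : D.card * z ^ (2 * (g - 1) * l) ≤ 2 * z ^ (2 * g * l + l) := by
      have h5 : 2 * (D.card * z ^ (g * l + l + 2 * (g * h + g + 3)))
          ≤ D.card * z ^ (2 * (g - 1) * l) := by
        calc 2 * (D.card * z ^ (g * l + l + 2 * (g * h + g + 3)))
            = D.card * (2 * z ^ (g * l + l + 2 * (g * h + g + 3))) := by ring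
          _ ≤ _ := Nat.mul_le_mul_left _ h3
      omega
    have h5 : z ^ (2 * g * l + l) = z ^ (3 * l) * z ^ (2 * (g - 1) * l) := by
      rw [← pow_add]
      congr 1
      obtain ⟨g', rfl⟩ : ∃ g', g = g' + 1 := ⟨g - 1, by omega⟩
      rw [Nat.add_sub_cancel]
      ring
    rw [h5, ← mul_assoc] at h4
    exact Nat.le_of_mul_le_mul_right h4 (Nat.pow_pos (by omega))

lemma exc_count (h : ℕ) : ∃ z₀ : ℕ, ∀ z : ℕ, z₀ ≤ z → ∀ l g : ℕ, l = 2 * h + 6 → g = 3 * l + 5 →
    ∀ E : Finset ℕ, (∀ d ∈ E, Exc z g d ∧ d ≤ z ^ (g * h + g + 3)) →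
      E.card ≤ z ^ (3 * l + 3) := by
  obtain ⟨z₁, hz₁, hdiv⟩ := div_bound ((3 * (2 * h + 6) + 5) * (2 * h + 6)) 1
  refine ⟨max z₁ 17, fun z hz l g hl hg E hE => ?_⟩
  have hz1 : z₁ ≤ z := (le_max_left _ _).trans hz
  have hz17 : 17 ≤ z := (le_max_right _ _).trans hz
  have hdiv' : ∀ n : ℕ, n ≠ 0 → n ≤ z ^ (g * l) → n.divisors.card ≤ z := by
    intro n hn hnz
    subst hl hg
    have := hdiv z hz1 n hn hnz
    simpa using this
  have hTpos : 0 < z ^ (g - 1) := Nat.pow_pos (by omega)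
  have hzg : z * z ^ (g - 1) = z ^ g := by
    rw [← pow_succ']
    congr 1
    omega
  have hsub : E ⊆ (range (z + 1) ×ˢ range 8).biUnion (fun ic =>
      E.filter (fun d => (z ^ (g - 1) : ℤ) ≤ |S d 8 ic.2 (ic.1 * z ^ (g - 1))|)) := by
    intro d hd
    obtain ⟨⟨-, -, -, t, ht, c, hc, hS⟩, -⟩ := hE d hd
    rw [mem_biUnion]
    refine ⟨(t / z ^ (g - 1), c), ?_, ?_⟩
    · rw [mem_product, mem_range, mem_range]
      refine ⟨?_, hc⟩
      have : t / z ^ (g - 1) ≤ z := by
        apply Nat.div_le_of_le_mul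
        rw [mul_comm, hzg]
        exact ht
      omega
    · rw [mem_filter]
      refine ⟨hd, ?_⟩
      have h1 := S_diff d 8 c (t / z ^ (g - 1) * z ^ (g - 1)) (t % z ^ (g - 1))
      rw [Nat.div_add_mod' t (z ^ (g - 1))] at h1
      have h2 : ((t % z ^ (g - 1) : ℕ) : ℤ) ≤ (z ^ (g - 1) : ℤ) := by
        exact_mod_cast (Nat.mod_lt t hTpos).le
      have h3 := abs_sub_abs_le_abs_sub (S d 8 c t) (S d 8 c (t / z ^ (g - 1) * z ^ (g - 1)))
      simp only
      linarith
  refine (card_le_card hsub).trans (card_biUnion_le.trans ?_)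
  calc ∑ ic ∈ range (z + 1) ×ˢ range 8,
        (E.filter (fun d => (z ^ (g - 1) : ℤ) ≤ |S d 8 ic.2 (ic.1 * z ^ (g - 1))|)).card
      ≤ ∑ _ic ∈ range (z + 1) ×ˢ range 8, 2 * z ^ (3 * l) := by
        refine sum_le_sum fun ic hic => ?_
        rw [mem_product, mem_range, mem_range] at hic
        refine exc_count_one h z l g hl hg (by omega) hdiv' _ ?_ ic.1 ic.2 (by omega) ?_
        · intro d hd
          rw [mem_filter] at hd
          obtain ⟨⟨h1, h2, -⟩, h3⟩ := hE d hd.1
          exact ⟨h1, h2, h3⟩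
        · intro d hd
          rw [mem_filter] at hd
          exact hd.2
    _ = 16 * (z + 1) * z ^ (3 * l) := by
        rw [sum_const, card_product, card_range, card_range, smul_eq_mul]
        ring
    _ ≤ z ^ 3 * z ^ (3 * l) := by
        refine Nat.mul_le_mul_right _ ?_
        have : 16 * (z + 1) ≤ z * z := by nlinarith
        calc 16 * (z + 1) ≤ z * z := this
          _ ≤ z * z * z := Nat.le_mul_of_pos_right _ (by omega)
          _ = z ^ 3 := by ring
    _ = z ^ (3 * l + 3) := by rw [← pow_add, add_comm]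

end Pool.Agent.QHalf
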