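import Mathlib
import Pool.Agent.QHalf.Exc

/-!
# QHalf, module Class: small numbers in all quadratic residue classes (helper36)
-/

set_option autoImplicit false

namespace Pool.Agent.QHalf

open Finset

/-- multiples of `e` in a sum of Jacobi symbols -/
lemma sum_multiples (d e c B : ℕ) (he : Odd e) :
    ∑ b ∈ (Finset.Icc 1 B).filter (fun b => b % 8 = c % 8),
      (jacobiSym b d * if e ∣ b then 1 else 0) = jacobiSym e d * S d 8 (c * e) (B / e) := by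
  have he0 : 0 < e := he.pos
  have he8 : e * e % 8 = 1 := by
    have h1 : e % 8 = 1 ∨ e % 8 = 3 ∨ e % 8 = 5 ∨ e % 8 = 7 := by
      obtain ⟨k, rfl⟩ := he
      omega
    rw [Nat.mul_mod]
    rcases h1 with h | h | h | h <;> rw [h]
  unfold S
  rw [mul_sum]
  have h1 : ∑ b ∈ (Finset.Icc 1 B).filter (fun b => b % 8 = c % 8),
      (jacobiSym b d * if e ∣ b then 1 else 0)
      = ∑ b ∈ ((Finset.Icc 1 B).filter (fun b => b % 8 = c % 8)).filter (fun b => e ∣ b),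
        jacobiSym b d := by
    rw [sum_filter (fun b => e ∣ b)]
    refine sum_congr rfl fun b _ => ?_
    split_ifs <;> simp
  rw [h1]
  symm
  refine sum_nbij (fun b => e * b) ?_ ?_ ?_ ?_
  · intro b hb
    rw [mem_filter, mem_Icc] at hb
    rw [mem_filter, mem_filter, mem_Icc]
    refine ⟨⟨⟨Nat.mul_pos he0 (by omega), ?_⟩, ?_⟩, dvd_mul_right _ _⟩
    · rw [mul_comm]
      exact (Nat.le_div_iff_mul_le he0).1 hb.1.2
    · rw [Nat.mul_mod, hb.2, ← Nat.mul_mod, show e * (c * e) = c * (e * e) by ring, Nat.mul_mod,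
        he8, mul_one, Nat.mod_mod]
  · intro b _ b' _ hbb
    exact Nat.eq_of_mul_eq_mul_left he0 hbb
  · intro b hb
    rw [coe_filter, Set.mem_setOf_eq, mem_filter, mem_Icc] at hb
    obtain ⟨⟨⟨hb1, hb2⟩, hb3⟩, b', rfl⟩ := hb
    refine ⟨b', ?_, rfl⟩
    rw [mem_coe, mem_filter, mem_Icc]
    refine ⟨⟨?_, ?_⟩, ?_⟩
    · rcases Nat.eq_zero_or_pos b' with h | h
      · rw [h] at hb1; omega
      · exact h
    · rw [Nat.le_div_iff_mul_le he0, mul_comm]
      exact hb2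
    · rw [Nat.mul_mod c e, ← hb3, ← Nat.mul_mod, show e * b' * e = b' * (e * e) by ring,
        Nat.mul_mod, he8, mul_one, Nat.mod_mod]
  · intro b _
    push_cast
    rw [jacobiSym.mul_left]

lemma S_mod (d c t : ℕ) : S d 8 c t = S d 8 (c % 8) t := by
  unfold S
  rw [Nat.mod_mod]

lemma S_one (c t : ℕ) : |(S 1 8 c t : ℝ) - t / 8| ≤ 2 := by
  have h1 : (S 1 8 c t : ℤ) = (((Finset.Ioc 0 t).filter (fun b => b ≡ c [MOD 8])).card : ℤ) := by
    unfold S
    simp only [Nat.cast_one, jacobiSym.one_right, sum_const, nsmul_eq_mul, mul_one]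
    rfl
  have h2 := Nat.Ioc_filter_modEq_card 0 t (r := 8) (by norm_num) c
  rw [← h1] at h2
  have h3 := Int.floor_le (((t : ℕ) - (c : ℕ)) / ((8 : ℕ) : ℚ))
  have h4 := Int.lt_floor_add_one (((t : ℕ) - (c : ℕ)) / ((8 : ℕ) : ℚ))
  have h5 := Int.floor_le ((((0 : ℕ) : ℚ) - (c : ℕ)) / ((8 : ℕ) : ℚ))
  have h6 := Int.lt_floor_add_one ((((0 : ℕ) : ℚ) - (c : ℕ)) / ((8 : ℕ) : ℚ))
  generalize ⌊((t : ℕ) - (c : ℕ)) / ((8 : ℕ) : ℚ)⌋ = x at h2 h3 h4
  generalize ⌊(((0 : ℕ) : ℚ) - (c : ℕ)) / ((8 : ℕ) : ℚ)⌋ = y at h2 h5 h6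
  push_cast at h3 h4 h5 h6
  have h7 : |((S 1 8 c t : ℤ) : ℚ) - t / 8| ≤ 2 := by
    rw [h2, abs_le]
    push_cast
    have ht : (0 : ℚ) ≤ t := by positivity
    constructor
    · have := le_max_left ((x : ℚ) - y) 0
      linarith
    · have : max ((x : ℚ) - y) 0 ≤ t / 8 + 2 := by
        apply max_le
        · linarith
        · positivity
      linarith
  have h8 : ((|((S 1 8 c t : ℤ) : ℚ) - t / 8| : ℚ) : ℝ) ≤ ((2 : ℚ) : ℝ) := by exact_mod_cast h7
  push_cast at h8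
  exact h8

lemma two_pow_le (P : ℕ) (hP : P ≠ 0) : 2 ^ P.primeFactors.card ≤ P.divisors.card := by
  rw [← card_powerset]
  refine card_le_card_of_injOn (fun U => ∏ p ∈ U, p) ?_ ?_
  · intro U hU
    rw [mem_coe, mem_powerset] at hU
    rw [mem_coe, Nat.mem_divisors]
    refine ⟨?_, hP⟩
    exact (prod_dvd_prod_of_subset _ _ _ hU).trans (Nat.prod_primeFactors_dvd P)
  · intro U hU U' hU' h
    rw [mem_coe, mem_powerset] at hU hU'
    rw [← Nat.primeFactors_prod (fun p hp => Nat.prime_of_mem_primeFactors (hU hp)),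
      ← Nat.primeFactors_prod (fun p hp => Nat.prime_of_mem_primeFactors (hU' hp))]
    exact congrArg _ h

/-- expansion of the product -/
lemma expand (Q : Finset ℕ) (hQ : ∀ p ∈ Q, p.Prime) (ε : ℕ → ℤ) (b : ℕ) :
    ∏ p ∈ Q, (ε p * jacobiSym b p + (1 - if p ∣ b then 1 else 0))
      = ∑ U ∈ Q.powerset, ∑ W ∈ (Q \ U).powerset, (∏ p ∈ U, ε p) * (-1) ^ W.card *
        (jacobiSym b (∏ p ∈ U, p) * if (∏ p ∈ W, p) ∣ b then 1 else 0) := by
  rw [prod_add]
  refine sum_congr rfl fun U hU => ?_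
  rw [mem_powerset] at hU
  have h1 : ∏ p ∈ U, (ε p * jacobiSym b p) = (∏ p ∈ U, ε p) * jacobiSym b (∏ p ∈ U, p) := by
    rw [prod_mul_distrib]
    congr 1
    have h2 : ∀ s : Finset ℕ, s ⊆ Q → ∏ p ∈ s, jacobiSym b p = jacobiSym b (∏ p ∈ s, p) := by
      intro s
      induction s using Finset.induction_on with
      | empty => intro _; simp
      | insert a s ha ih =>
        intro hs
        rw [prod_insert ha, prod_insert ha, ih ((subset_insert a s).trans hs),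
          jacobiSym.mul_right' _ (hQ a (hs (mem_insert_self a s))).ne_zero
            (prod_ne_zero_iff.2 fun p hp => (hQ p (hs (mem_insert_of_mem hp))).ne_zero)]
    exact h2 U hU
  have h2 : ∏ p ∈ Q \ U, ((1 : ℤ) - if p ∣ b then 1 else 0)
      = ∑ W ∈ (Q \ U).powerset, (-1) ^ W.card * if (∏ p ∈ W, p) ∣ b then 1 else 0 := by
    have h3 : ∀ p ∈ Q \ U, ((1 : ℤ) - if p ∣ b then 1 else 0)
        = (- if p ∣ b then 1 else 0) + 1 := fun p _ => by ring
    rw [prod_congr rfl h3, prod_add]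
    refine sum_congr rfl fun W hW => ?_
    rw [mem_powerset] at hW
    rw [prod_const_one, mul_one, prod_neg]
    congr 1
    by_cases h4 : ∀ p ∈ W, p ∣ b
    · rw [if_pos (Finset.prod_primes_dvd b (fun p hp => (hQ p (mem_sdiff.1 (hW hp)).1).prime) h4)]
      rw [prod_congr rfl (g := fun _ => 1) fun p hp => if_pos (h4 p hp), prod_const_one]
    · rw [if_neg (fun h => h4 fun p hp => (dvd_prod_of_mem _ hp).trans h)]
      push Not at h4
      obtain ⟨p, hp, hpb⟩ := h4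
      exact prod_eq_zero hp (if_neg hpb)
  rw [h1, h2, mul_sum]
  refine sum_congr rfl fun W _ => ?_
  ring

/-- the main term -/
lemma main_term (Q : Finset ℕ) (hQ : ∀ p ∈ Q, p.Prime) (c B : ℕ) :
    (B : ℝ) / 8 / 2 ^ Q.card - 3 * 2 ^ Q.card ≤
      ((∑ W ∈ Q.powerset, (-1) ^ W.card * S 1 8 (c * ∏ p ∈ W, p) (B / ∏ p ∈ W, p) : ℤ) : ℝ) := by
  push_cast
  have h1 : ∀ W ∈ Q.powerset, (-1 : ℝ) ^ W.card * ((B : ℝ) / 8 * ∏ p ∈ W, (1 / (p : ℝ))) - 3
      ≤ (-1 : ℝ) ^ W.card * (S 1 8 (c * ∏ p ∈ W, p) (B / ∏ p ∈ W, p) : ℝ) := by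
    intro W hW
    rw [mem_powerset] at hW
    have hpos : 0 < ∏ p ∈ W, p := prod_pos fun p hp => (hQ p (hW hp)).pos
    have h2 := S_one (c * ∏ p ∈ W, p) (B / ∏ p ∈ W, p)
    have h3 : ((B / ∏ p ∈ W, p : ℕ) : ℝ) ≤ (B : ℝ) * ∏ p ∈ W, (1 / (p : ℝ)) := by
      refine Nat.cast_div_le.trans (le_of_eq ?_)
      rw [prod_div_distrib, prod_const_one]
      push_cast
      ring
    have h4 : (B : ℝ) * ∏ p ∈ W, (1 / (p : ℝ)) ≤ ((B / ∏ p ∈ W, p : ℕ) : ℝ) + 1 := by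
      have h5 : (B : ℝ) * ∏ p ∈ W, (1 / (p : ℝ)) = (B : ℝ) / ((∏ p ∈ W, p : ℕ) : ℝ) := by
        rw [prod_div_distrib, prod_const_one]
        push_cast
        ring
      rw [h5, div_le_iff₀ (by exact_mod_cast hpos)]
      have h6 := Nat.div_add_mod B (∏ p ∈ W, p)
      have h7 := Nat.mod_lt B hpos
      have h8 : B ≤ (B / (∏ p ∈ W, p) + 1) * ∏ p ∈ W, p := by
        nlinarith
      exact_mod_cast h8
    rw [abs_le] at h2
    rcases neg_one_pow_eq_or ℝ W.card with h | h <;> rw [h] <;> linarith [h2.1, h2.2]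
  have h2 : ∑ W ∈ Q.powerset, (-1 : ℝ) ^ W.card * ((B : ℝ) / 8 * ∏ p ∈ W, (1 / (p : ℝ)))
      = (B : ℝ) / 8 * ∏ p ∈ Q, (1 - 1 / (p : ℝ)) := by
    have h3 : ∏ p ∈ Q, (1 - 1 / (p : ℝ)) = ∏ p ∈ Q, ((- (1 / (p : ℝ))) + 1) :=
      prod_congr rfl fun p _ => by ring
    rw [h3, prod_add, mul_sum]
    refine sum_congr rfl fun W _ => ?_
    rw [prod_const_one, mul_one, prod_neg]
    ring
  have h3 : (1 / 2 : ℝ) ^ Q.card ≤ ∏ p ∈ Q, (1 - 1 / (p : ℝ)) := by
    rw [← prod_const]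
    refine prod_le_prod (fun _ _ => by norm_num) fun p hp => ?_
    have h4 : (2 : ℝ) ≤ p := by exact_mod_cast (hQ p hp).two_le
    have h5 : 1 / (p : ℝ) ≤ 1 / 2 := one_div_le_one_div_of_le (by norm_num) h4
    linarith
  calc (B : ℝ) / 8 / 2 ^ Q.card - 3 * 2 ^ Q.card
      = (B : ℝ) / 8 * (1 / 2 : ℝ) ^ Q.card - 3 * 2 ^ Q.card := by
        rw [one_div, inv_pow]; ring
    _ ≤ (B : ℝ) / 8 * ∏ p ∈ Q, (1 - 1 / (p : ℝ)) - 3 * 2 ^ Q.card := by gcongr
    _ = ∑ W ∈ Q.powerset,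
        ((-1 : ℝ) ^ W.card * ((B : ℝ) / 8 * ∏ p ∈ W, (1 / (p : ℝ))) - 3) := by
        rw [sum_sub_distrib, h2, sum_const, card_powerset, nsmul_eq_mul]
        push_cast
        ring
    _ ≤ _ := sum_le_sum h1

lemma class_exists (M : ℕ) : ∃ z₀ : ℕ, ∀ z : ℕ, z₀ ≤ z → ∀ g : ℕ, 1 ≤ g → ∀ P : ℕ, Odd P →
    Squarefree P → P ≤ z ^ M → (∀ d, d ∣ P → d ≠ 1 → ¬ Exc z g d) →
    ∀ ε : ℕ → ℤ, (∀ p, ε p = 1 ∨ ε p = -1) → ∀ c : ℕ, c < 8 → Odd c →
    ∃ b : ℕ, 1 ≤ b ∧ b ≤ z ^ g ∧ b % 8 = c ∧ ∀ p ∈ P.primeFactors, jacobiSym b p = ε p := by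
  obtain ⟨z₀, hz₀, hdiv⟩ := div_bound M 41
  refine ⟨z₀, fun z hz g hg P hP hPsf hPz hexc ε hε c hc hcodd => ?_⟩
  by_contra hcon
  push Not at hcon
  have hz1 : 1 ≤ z := hz₀.trans hz
  have hP0 : P ≠ 0 := hP.pos.ne'
  set Q := P.primeFactors with hQdef
  have hQ : ∀ p ∈ Q, p.Prime := fun p hp => Nat.prime_of_mem_primeFactors hp
  have hQodd : ∀ p ∈ Q, Odd p := fun p hp =>
    Odd.of_dvd_nat hP (Nat.dvd_of_mem_primeFactors hp)
  set T := (Finset.Icc 1 (z ^ g)).filter (fun b => b % 8 = c % 8) with hT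
  have hprododd : ∀ W : Finset ℕ, W ⊆ Q → Odd (∏ p ∈ W, p) := by
    intro W hW
    refine Odd.of_dvd_nat hP ?_
    exact (prod_dvd_prod_of_subset _ _ _ hW).trans (Nat.prod_primeFactors_dvd P)
  have hzero : ∑ b ∈ T, ∏ p ∈ Q, (ε p * jacobiSym b p + (1 - if p ∣ b then 1 else 0)) = 0 := by
    refine sum_eq_zero fun b hb => ?_
    rw [hT, mem_filter, mem_Icc] at hb
    obtain ⟨p, hp, hpb⟩ := hcon b hb.1.1 hb.1.2 (by rw [hb.2]; exact Nat.mod_eq_of_lt hc)
    refine prod_eq_zero hp ?_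
    haveI : Fact p.Prime := ⟨hQ p hp⟩
    haveI : NeZero p := ⟨(hQ p hp).ne_zero⟩
    split_ifs with h
    · have : jacobiSym b p = 0 := by
        rw [jacobiSym.eq_zero_iff_not_coprime]
        rw [Int.gcd_natCast_natCast]
        intro h2
        have := (Nat.Coprime.eq_one_of_dvd (Nat.coprime_comm.1 h2) h)
        exact (hQ p hp).one_lt.ne' this
      rw [this]
      ring
    · have h1 : jacobiSym b p = 1 ∨ jacobiSym b p = -1 := by
        apply jacobiSym.eq_one_or_neg_one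
        rw [Int.gcd_natCast_natCast]
        rw [← Nat.coprime_iff_gcd_eq_one, Nat.coprime_comm]
        exact (Nat.Prime.coprime_iff_not_dvd (hQ p hp)).2 h
      rcases hε p with h2 | h2 <;> rcases h1 with h3 | h3
      · exact absurd (h3.trans h2.symm) hpb
      · rw [h2, h3]; ring
      · rw [h2, h3]; ring
      · exact absurd (h3.trans h2.symm) hpb
  set f : Finset ℕ → ℤ := fun U => ∑ W ∈ (Q \ U).powerset, (∏ p ∈ U, ε p) * (-1) ^ W.card *
      (jacobiSym (∏ p ∈ W, p : ℕ) (∏ p ∈ U, p) *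
        S (∏ p ∈ U, p) 8 (c * ∏ p ∈ W, p) (z ^ g / ∏ p ∈ W, p)) with hf
  have hsum : ∑ U ∈ Q.powerset, f U = 0 := by
    rw [← hzero]
    rw [sum_congr rfl (fun b _ => expand Q hQ ε b), sum_comm]
    refine sum_congr rfl fun U hU => ?_
    rw [sum_comm]
    refine sum_congr rfl fun W hW => ?_
    rw [mem_powerset] at hW hU
    rw [← mul_sum, sum_multiples _ _ _ _ (hprododd W (hW.trans sdiff_subset))]
  have hempty : f ∅ = ∑ W ∈ Q.powerset, (-1) ^ W.card *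
      S 1 8 (c * ∏ p ∈ W, p) (z ^ g / ∏ p ∈ W, p) := by
    simp only [hf, sdiff_empty, prod_empty, one_mul]
    refine sum_congr rfl fun W _ => ?_
    rw [jacobiSym.one_right, one_mul]
  have hmain := main_term Q hQ c (z ^ g)
  rw [← hempty] at hmain
  have hrest : ∀ U ∈ Q.powerset.erase ∅, |(f U : ℝ)| ≤ 2 ^ Q.card * (2 * (z : ℝ) ^ (g - 1)) := by
    intro U hU
    rw [mem_erase, mem_powerset] at hU
    have hUd : ∏ p ∈ U, p ∣ P :=
      (prod_dvd_prod_of_subset _ _ _ hU.2).trans (Nat.prod_primeFactors_dvd P)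
    have hU1 : ∏ p ∈ U, p ≠ 1 := by
      intro h
      obtain ⟨p, hp⟩ := nonempty_iff_ne_empty.2 hU.1
      have h2 := dvd_prod_of_mem (fun p : ℕ => p) hp
      rw [h] at h2
      exact (hQ p (hU.2 hp)).one_lt.ne' (Nat.dvd_one.1 h2)
    have hne := hexc _ hUd hU1
    have hS : ∀ W ∈ (Q \ U).powerset, |S (∏ p ∈ U, p) 8 (c * ∏ p ∈ W, p) (z ^ g / ∏ p ∈ W, p)|
        ≤ 2 * (z ^ (g - 1) : ℤ) := by
      intro W _
      by_contra h
      push Not at h
      apply hne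
      refine ⟨hprododd U hU.2, Squarefree.squarefree_of_dvd hUd hPsf, hU1,
        z ^ g / ∏ p ∈ W, p, Nat.div_le_self _ _, (c * ∏ p ∈ W, p) % 8, Nat.mod_lt _ (by norm_num),
        ?_⟩
      rw [← S_mod]
      exact h.le
    have h1 : |f U| ≤ 2 ^ Q.card * (2 * (z ^ (g - 1) : ℤ)) := by
      simp only [hf]
      refine (abs_sum_le_sum_abs _ _).trans ?_
      calc ∑ W ∈ (Q \ U).powerset, |(∏ p ∈ U, ε p) * (-1) ^ W.card *
            (jacobiSym (∏ p ∈ W, p : ℕ) (∏ p ∈ U, p) *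
              S (∏ p ∈ U, p) 8 (c * ∏ p ∈ W, p) (z ^ g / ∏ p ∈ W, p))|
          ≤ ∑ _W ∈ (Q \ U).powerset, 2 * (z ^ (g - 1) : ℤ) := by
            refine sum_le_sum fun W hW => ?_
            rw [abs_mul, abs_mul, abs_mul, abs_prod, abs_pow, abs_neg, abs_one, one_pow, mul_one]
            have h2 : ∏ p ∈ U, |ε p| = 1 := prod_eq_one fun p _ => by
              rcases hε p with h | h <;> rw [h] <;> norm_num
            rw [h2, one_mul]
            refine (mul_le_of_le_one_left (abs_nonneg _) (jac_abs_le _ _)).trans (hS W hW)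
        _ = 2 ^ (Q \ U).card * (2 * (z ^ (g - 1) : ℤ)) := by
            rw [sum_const, card_powerset, nsmul_eq_mul]
            push_cast
            rfl
        _ ≤ 2 ^ Q.card * (2 * (z ^ (g - 1) : ℤ)) := by
            refine mul_le_mul_of_nonneg_right ?_ (by positivity)
            exact pow_le_pow_right₀ (by norm_num) (card_le_card sdiff_subset)
    exact_mod_cast h1
  have hsplit : (f ∅ : ℝ) + ∑ U ∈ Q.powerset.erase ∅, (f U : ℝ) = 0 := by
    have h1 := add_sum_erase Q.powerset f (empty_mem_powerset Q)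
    rw [hsum] at h1
    exact_mod_cast h1
  have hrest2 : |∑ U ∈ Q.powerset.erase ∅, (f U : ℝ)|
      ≤ 2 ^ Q.card * (2 ^ Q.card * (2 * (z : ℝ) ^ (g - 1))) := by
    refine (abs_sum_le_sum_abs _ _).trans ((sum_le_sum hrest).trans ?_)
    rw [sum_const, nsmul_eq_mul]
    refine mul_le_mul_of_nonneg_right ?_ (by positivity)
    have h1 : (Q.powerset.erase ∅).card ≤ 2 ^ Q.card := by
      rw [← card_powerset]
      exact card_le_card (erase_subset _ _)
    exact_mod_cast h1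
  set τ : ℝ := 2 ^ Q.card with hτ
  have hτ1 : 1 ≤ τ := one_le_pow₀ (by norm_num)
  have hZ1 : (1 : ℝ) ≤ (z : ℝ) ^ (g - 1) := one_le_pow₀ (by exact_mod_cast hz1)
  have hzg : ((z ^ g : ℕ) : ℝ) = z * (z : ℝ) ^ (g - 1) := by
    push_cast
    rw [← pow_succ']
    congr 1
    omega
  rw [hzg] at hmain
  set Z : ℝ := (z : ℝ) ^ (g - 1) with hZ
  have h5 : (z : ℝ) * Z / 8 / τ ≤ 3 * τ + τ * (τ * (2 * Z)) := by
    rw [abs_le] at hrest2
    linarith [hrest2.1, hrest2.2]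
  have h6 : (z : ℝ) * Z ≤ 40 * τ ^ 3 * Z := by
    rw [div_div, div_le_iff₀ (by positivity)] at h5
    have h7 : τ ≤ τ ^ 2 * Z := by nlinarith [mul_le_mul hτ1 hZ1 (by norm_num) (by linarith)]
    have h8 : τ * τ ≤ τ ^ 3 * Z := by nlinarith
    nlinarith
  have h7 : (z : ℝ) ≤ 40 * τ ^ 3 := le_of_mul_le_mul_right h6 (by linarith)
  have h8 := hdiv z hz P hP0 hPz
  have h9 : τ ≤ (P.divisors.card : ℝ) := by
    have := two_pow_le P hP0
    rw [hτ]
    exact_mod_cast this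
  have h10 : (41 : ℝ) * (P.divisors.card : ℝ) ^ 41 ≤ z := by exact_mod_cast h8
  have h11 : τ ^ 3 ≤ (P.divisors.card : ℝ) ^ 41 :=
    (pow_le_pow_right₀ hτ1 (by norm_num)).trans (pow_le_pow_left₀ (by linarith) h9 41)
  have h12 : (1 : ℝ) ≤ τ ^ 3 := one_le_pow₀ hτ1
  linarith

end Pool.Agent.QHalf
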