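import Mathlib

/-!
# QHalf, module Lat: the lattice step (helper36)
-/

set_option autoImplicit false

namespace Pool.Agent.QHalf

open Finset

/-- pigeonhole -/
lemma exists_vec (r : ℕ) (hr : 0 < r) (a σ : ℤ) (M N : ℕ) (h : r < (M + 1) * (N + 1)) :
    ∃ m n : ℤ, ¬ (m = 0 ∧ n = 0) ∧ |m| ≤ M ∧ |n| ≤ N ∧ (r : ℤ) ∣ a * n - σ * m := by
  haveI : NeZero r := ⟨hr.ne'⟩
  obtain ⟨x, hx, y, hy, hxy, hf⟩ := exists_ne_map_eq_of_card_lt_of_maps_to
    (s := range (M + 1) ×ˢ range (N + 1)) (t := (univ : Finset (ZMod r)))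
    (f := fun z => ((a * z.2 - σ * z.1 : ℤ) : ZMod r)) (by
      rw [card_product, card_range, card_range, card_univ, ZMod.card]
      exact h) (fun _ _ => mem_univ _)
  rw [mem_product, mem_range, mem_range] at hx hy
  refine ⟨(x.1 : ℤ) - y.1, (x.2 : ℤ) - y.2, ?_, ?_, ?_, ?_⟩
  · rintro ⟨h1, h2⟩
    apply hxy
    exact Prod.ext (by omega) (by omega)
  · rw [abs_le]; constructor <;> omega
  · rw [abs_le]; constructor <;> omega
  · have h1 := (ZMod.intCast_eq_intCast_iff_dvd_sub _ _ r).1 hf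
    have h2 : a * ((x.2 : ℤ) - y.2) - σ * ((x.1 : ℤ) - y.1)
        = - ((a * y.2 - σ * y.1) - (a * x.2 - σ * x.1)) := by ring
    rw [h2]
    exact (dvd_neg).2 h1

lemma sqrt_mod (r : ℕ) (hr : Squarefree r) (x : ℤ)
    (h : ∀ p ∈ r.primeFactors, jacobiSym x p = 1) : ∃ σ : ℤ, (r : ℤ) ∣ σ ^ 2 - x := by
  have h1 : ∀ p ∈ r.primeFactors, ∃ s : ℕ, (p : ℤ) ∣ (s : ℤ) ^ 2 - x := by
    intro p hp
    haveI : Fact p.Prime := ⟨Nat.prime_of_mem_primeFactors hp⟩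
    obtain ⟨y, hy⟩ := ZMod.isSquare_of_jacobiSym_eq_one (h p hp)
    refine ⟨y.val, ?_⟩
    rw [← ZMod.intCast_zmod_eq_zero_iff_dvd]
    push_cast
    rw [ZMod.natCast_val, ZMod.cast_id, hy]
    ring
  choose! s hs using h1
  obtain ⟨k, hk⟩ := Nat.chineseRemainderOfFinset s (fun p => p) r.primeFactors
    (fun p hp => (Nat.prime_of_mem_primeFactors hp).ne_zero) (by
      intro p hp q hq hpq
      exact (Nat.coprime_primes (Nat.prime_of_mem_primeFactors hp)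
        (Nat.prime_of_mem_primeFactors hq)).2 hpq)
  refine ⟨k, ?_⟩
  have h2 : ((∏ p ∈ r.primeFactors, p : ℕ) : ℤ) ∣ (k : ℤ) ^ 2 - x := by
    rw [Nat.cast_prod]
    refine Finset.prod_dvd_of_coprime ?_ ?_
    · intro p hp q hq hpq
      exact Nat.isCoprime_iff_coprime.2 ((Nat.coprime_primes (Nat.prime_of_mem_primeFactors hp)
        (Nat.prime_of_mem_primeFactors hq)).2 hpq)
    · intro p hp
      have h3 : (k : ℤ) ≡ (s p : ℤ) [ZMOD (p : ℤ)] := (Int.natCast_modEq_iff).2 (hk p hp)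
      have h4 := (h3.pow 2).sub_right x
      exact (Int.ModEq.dvd_iff h4).2 (hs p hp)
  rwa [Nat.prod_primeFactors_of_squarefree hr] at h2

/-- the key vector -/
lemma key_vec (v r₁ r₂ : ℕ) (hr₁ : Squarefree r₁) (hr₂ : 0 < r₂) (hR : 1 < r₂ ^ 2 * r₁)
    (hodd : Odd r₁) (hcop : Nat.Coprime r₁ v) (a b : ℤ)
    (ha : Odd a) (har : IsCoprime a r₁) (hb : Odd b)
    (hb8 : (8 : ℤ) ∣ b - 5 * a)
    (hbr : ∀ p ∈ r₁.primeFactors, jacobiSym (a * b) p = 1)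
    (hbv : ∀ p : ℕ, p.Prime → p ≠ 2 → p ∣ v → jacobiSym (a * b) p = -1)
    (μ ν : ℝ) (hμ : 0 < μ) (hν : 0 < ν) (hμν : μ * ν = (r₂ ^ 2 * r₁ : ℕ))
    (hμ4 : μ ^ 4 = (r₂ ^ 2 * r₁ : ℕ)) :
    ∃ m n t : ℤ, n ≠ 0 ∧ |(r₂ * m : ℝ)| ≤ 2 * μ ∧ |(r₂ * n : ℝ)| ≤ 2 * ν ∧
      a * n ^ 2 - b * m ^ 2 = 4 * r₁ * t ∧ IsCoprime t (v : ℤ) := by
  classical
  have hr₁0 : 0 < r₁ := hodd.pos
  obtain ⟨σ, hσ⟩ := sqrt_mod r₁ hr₁ (a * b) hbr
  -- the lattice vectors in the box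
  have hex : ∃ k : ℕ, ∃ m n : ℤ, (¬ (m = 0 ∧ n = 0) ∧ |(r₂ * m : ℝ)| ≤ μ ∧ |(r₂ * n : ℝ)| ≤ ν ∧
      (r₁ : ℤ) ∣ a * n - σ * m) ∧ m.natAbs + n.natAbs = k := by
    obtain ⟨m, n, h1, h2, h3, h4⟩ := exists_vec r₁ hr₁0 a σ ⌊μ / r₂⌋₊ ⌊ν / r₂⌋₊ (by
      have h1 := Nat.lt_floor_add_one (μ / r₂)
      have h2 := Nat.lt_floor_add_one (ν / r₂)
      have h3 : (r₁ : ℝ) = (μ / r₂) * (ν / r₂) := by
        rw [div_mul_div_comm, hμν]
        have : (r₂ : ℝ) ≠ 0 := by exact_mod_cast hr₂.ne'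
        push_cast
        field_simp
      have h4 : (r₁ : ℝ) < ((⌊μ / r₂⌋₊ : ℝ) + 1) * ((⌊ν / r₂⌋₊ : ℝ) + 1) := by
        rw [h3]
        exact mul_lt_mul h1 h2.le (by positivity) (by positivity)
      exact_mod_cast h4)
    refine ⟨_, m, n, ⟨h1, ?_, ?_, h4⟩, rfl⟩
    · have h5 : (|(m : ℝ)|) ≤ ⌊μ / r₂⌋₊ := by exact_mod_cast h2
      have h6 := Nat.floor_le (show (0:ℝ) ≤ μ / r₂ by positivity)
      rw [abs_mul, Nat.abs_cast]
      calc (r₂ : ℝ) * |(m : ℝ)| ≤ r₂ * (μ / r₂) := by gcongr; exact h5.trans h6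
        _ = μ := by
          have : (r₂ : ℝ) ≠ 0 := by exact_mod_cast hr₂.ne'
          field_simp
    · have h5 : (|(n : ℝ)|) ≤ ⌊ν / r₂⌋₊ := by exact_mod_cast h3
      have h6 := Nat.floor_le (show (0:ℝ) ≤ ν / r₂ by positivity)
      rw [abs_mul, Nat.abs_cast]
      calc (r₂ : ℝ) * |(n : ℝ)| ≤ r₂ * (ν / r₂) := by gcongr; exact h5.trans h6
        _ = ν := by
          have : (r₂ : ℝ) ≠ 0 := by exact_mod_cast hr₂.ne'
          field_simp
  obtain ⟨m, n, ⟨hne, hm, hn, hdvd⟩, hk⟩ := Nat.find_spec hex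
  have hmin : ∀ m' n' : ℤ, (¬ (m' = 0 ∧ n' = 0) ∧ |(r₂ * m' : ℝ)| ≤ μ ∧ |(r₂ * n' : ℝ)| ≤ ν ∧
      (r₁ : ℤ) ∣ a * n' - σ * m') → m.natAbs + n.natAbs ≤ m'.natAbs + n'.natAbs := by
    intro m' n' h
    rw [hk]
    exact Nat.find_min' hex ⟨m', n', h, rfl⟩
  -- primitivity
  have hprim : ∀ p : ℕ, p.Prime → Nat.Coprime p r₁ → ¬ ((p : ℤ) ∣ m ∧ (p : ℤ) ∣ n) := by
    rintro p hp hpr ⟨⟨m', rfl⟩, ⟨n', rfl⟩⟩
    have hp1 : (1 : ℝ) ≤ p := by exact_mod_cast hp.one_le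
    have h1 := hmin m' n' ⟨?_, ?_, ?_, ?_⟩
    · rw [Int.natAbs_mul, Int.natAbs_mul, Int.natAbs_natCast, ← Nat.mul_add] at h1
      have h2 : 0 < m'.natAbs + n'.natAbs := by
        by_contra h3
        apply hne
        constructor
        · rw [show m' = 0 by omega, mul_zero]
        · rw [show n' = 0 by omega, mul_zero]
      have h3 := hp.two_le
      nlinarith
    · rintro ⟨rfl, rfl⟩
      exact hne ⟨by ring, by ring⟩
    · refine le_trans ?_ hm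
      push_cast
      rw [show (r₂ : ℝ) * (p * m') = p * (r₂ * m') by ring, abs_mul (p : ℝ), Nat.abs_cast]
      exact le_mul_of_one_le_left (abs_nonneg _) hp1
    · refine le_trans ?_ hn
      push_cast
      rw [show (r₂ : ℝ) * (p * n') = p * (r₂ * n') by ring, abs_mul (p : ℝ), Nat.abs_cast]
      exact le_mul_of_one_le_left (abs_nonneg _) hp1
    · have h2 : a * (p * n') - σ * (p * m') = p * (a * n' - σ * m') := by ring
      rw [h2] at hdvd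
      exact (Nat.isCoprime_iff_coprime.2 hpr.symm).dvd_of_dvd_mul_left hdvd
  -- the value of the form
  have hform : (r₁ : ℤ) ∣ a * n ^ 2 - b * m ^ 2 := by
    have h1 : a * (a * n ^ 2 - b * m ^ 2)
        = (a * n - σ * m) * (a * n + σ * m) + (σ ^ 2 - a * b) * m ^ 2 := by ring
    have h2 : (r₁ : ℤ) ∣ a * (a * n ^ 2 - b * m ^ 2) := by
      rw [h1]
      exact dvd_add (Dvd.dvd.mul_right hdvd _) (Dvd.dvd.mul_right hσ _)
    exact har.symm.dvd_of_dvd_mul_left h2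
  obtain ⟨t, ht⟩ := hform
  have htp : ∀ p : ℕ, p.Prime → p ≠ 2 → p ∣ v → ¬ (p : ℤ) ∣ t := by
    intro p hp hp2 hpv hpt
    haveI : Fact p.Prime := ⟨hp⟩
    have h1 : (p : ℤ) ∣ (a * n) ^ 2 - a * b * m ^ 2 := by
      have : (a * n) ^ 2 - a * b * m ^ 2 = a * (a * n ^ 2 - b * m ^ 2) := by ring
      rw [this, ht]
      exact Dvd.dvd.mul_left (Dvd.dvd.mul_left hpt _) _
    obtain ⟨h2, h3⟩ := jacobiSym.prime_dvd_of_eq_neg_one (hbv p hp hp2 hpv) h1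
    have hpr : Nat.Coprime p r₁ := (Nat.Coprime.coprime_dvd_right hpv hcop).symm
    have h4 : (p : ℤ) ∣ n := by
      rcases (Nat.prime_iff_prime_int.1 hp).dvd_or_dvd h2 with h5 | h5
      · exfalso
        have h6 : jacobiSym (a * b) p = 0 := by
          haveI : NeZero p := ⟨hp.ne_zero⟩
          rw [jacobiSym.eq_zero_iff_not_coprime]
          intro h7
          have h8 : IsCoprime (a * b) (p : ℤ) := Int.isCoprime_iff_gcd_eq_one.2 h7
          have h9 := h8.symm.isUnit_of_dvd (Dvd.dvd.mul_right h5 b)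
          exact (Nat.prime_iff_prime_int.1 hp).not_unit h9
        rw [hbv p hp hp2 hpv] at h6
        exact absurd h6 (by norm_num)
      · exact h5
    exact hprim p hp hpr ⟨h3, h4⟩
  have h2r : Nat.Coprime 2 r₁ := (Nat.coprime_two_left).2 hodd
  have hr1z : Odd (r₁ : ℤ) := by exact_mod_cast hodd
  -- n is not zero
  have hn0 : n ≠ 0 := by
    intro h0
    have hm0 : m ≠ 0 := fun h => hne ⟨h, h0⟩
    rw [h0, mul_zero, zero_sub, dvd_neg] at hdvd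
    have hσc : IsCoprime σ (r₁ : ℤ) := by
      rw [Int.isCoprime_iff_gcd_eq_one]
      by_contra hc
      obtain ⟨p, hp, hpd⟩ := Nat.exists_prime_and_dvd hc
      haveI : NeZero p := ⟨hp.ne_zero⟩
      have h1 : (p : ℤ) ∣ σ := (Int.natCast_dvd_natCast.2 hpd).trans (Int.gcd_dvd_left ..)
      have h2 : (p : ℤ) ∣ (r₁ : ℤ) := (Int.natCast_dvd_natCast.2 hpd).trans (Int.gcd_dvd_right ..)
      have h3 : (p : ℤ) ∣ a * b := by
        have h4 := h2.trans hσ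
        have h5 : (p : ℤ) ∣ σ ^ 2 := dvd_pow h1 (by norm_num)
        exact (dvd_sub_right h5).1 h4
      have h6 : jacobiSym (a * b) p = 0 := by
        rw [jacobiSym.eq_zero_iff_not_coprime]
        intro h7
        have h8 : IsCoprime (a * b) (p : ℤ) := Int.isCoprime_iff_gcd_eq_one.2 h7
        exact (Nat.prime_iff_prime_int.1 hp).not_unit (h8.symm.isUnit_of_dvd h3)
      rw [hbr p (Nat.mem_primeFactors.2 ⟨hp, Int.natCast_dvd_natCast.1 h2, hr₁0.ne'⟩)] at h6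
      exact absurd h6 (by norm_num)
    have h1 : (r₁ : ℤ) ∣ m := hσc.symm.dvd_of_dvd_mul_left hdvd
    have h2 : r₁ ≤ m.natAbs := Nat.le_of_dvd (Int.natAbs_pos.2 hm0) (Int.natCast_dvd.1 h1)
    have h3 : (r₂ : ℝ) * r₁ ≤ μ := by
      refine le_trans ?_ hm
      rw [abs_mul, Nat.abs_cast]
      have h4 : ((r₁ : ℕ) : ℝ) ≤ |(m : ℝ)| := by
        have : ((m.natAbs : ℕ) : ℝ) = |(m : ℝ)| := by
          rw [Nat.cast_natAbs, Int.cast_abs]
        rw [← this]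
        exact_mod_cast h2
      gcongr
    have h4 : ((r₂ * r₁ : ℕ) : ℝ) ^ 4 ≤ ((r₂ ^ 2 * r₁ : ℕ) : ℝ) := by
      rw [← hμ4]
      push_cast
      exact pow_le_pow_left₀ (by positivity) h3 4
    have h5 : (r₂ * r₁) ^ 4 ≤ r₂ ^ 2 * r₁ := by exact_mod_cast h4
    have h6 : (r₂ ^ 2 * r₁) * (r₂ ^ 2 * r₁) ≤ (r₂ * r₁) ^ 4 := by
      calc (r₂ ^ 2 * r₁) * (r₂ ^ 2 * r₁) = r₂ ^ 4 * r₁ ^ 2 := by ring
        _ ≤ r₂ ^ 4 * r₁ ^ 4 := Nat.mul_le_mul_left _ (Nat.pow_le_pow_right hr₁0 (by norm_num))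
        _ = (r₂ * r₁) ^ 4 := by ring
    nlinarith
  -- the power of two
  have hcase : (Odd t) ∨ ∃ t', t = 4 * t' ∧ Odd t' := by
    have h2p := hprim 2 Nat.prime_two h2r
    obtain ⟨a', rfl⟩ := ha
    obtain ⟨b', rfl⟩ := hb
    obtain ⟨r', hr'⟩ := hr1z
    rw [hr'] at ht
    rcases Int.even_or_odd' m with ⟨m', rfl | rfl⟩ <;> rcases Int.even_or_odd' n with ⟨n', rfl | rfl⟩
    · exact absurd ⟨⟨m', by push_cast; ring⟩, ⟨n', by push_cast; ring⟩⟩ h2p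
    · left
      by_contra hc
      rw [Int.not_odd_iff_even] at hc
      obtain ⟨s, rfl⟩ := hc
      have h1 : (2 * a' + 1) * (2 * n' + 1) ^ 2 - (2 * b' + 1) * (2 * m') ^ 2
          = 2 * (4 * a' * n' ^ 2 + 4 * a' * n' + a' + 2 * n' ^ 2 + 2 * n'
            - 2 * (2 * b' + 1) * m' ^ 2) + 1 := by ring
      have h2 : (2 * r' + 1) * (s + s) = 2 * ((2 * r' + 1) * s) := by ring
      rw [h1, h2] at ht
      omega
    · left
      by_contra hc
      rw [Int.not_odd_iff_even] at hc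
      obtain ⟨s, rfl⟩ := hc
      have h1 : (2 * a' + 1) * (2 * n') ^ 2 - (2 * b' + 1) * (2 * m' + 1) ^ 2
          = 2 * (2 * (2 * a' + 1) * n' ^ 2 - (4 * b' * m' ^ 2 + 4 * b' * m' + b' + 2 * m' ^ 2
            + 2 * m')) - 1 := by ring
      have h2 : (2 * r' + 1) * (s + s) = 2 * ((2 * r' + 1) * s) := by ring
      rw [h1, h2] at ht
      omega
    · right
      obtain ⟨c, hc⟩ := hb8
      obtain ⟨M', hM'⟩ : (2 : ℤ) ∣ m' * (m' + 1) := (Int.even_mul_succ_self m').two_dvd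
      obtain ⟨N', hN'⟩ : (2 : ℤ) ∣ n' * (n' + 1) := (Int.even_mul_succ_self n').two_dvd
      have h1 : (2 * a' + 1) * (2 * n' + 1) ^ 2 - (2 * b' + 1) * (2 * m' + 1) ^ 2
          = 8 * ((2 * a' + 1) * N' - (2 * b' + 1) * M' - c - a' - 1) + 4 := by
        have e1 : (2 * n' + 1) ^ 2 = 8 * N' + 1 := by linear_combination 4 * hN'
        have e2 : (2 * m' + 1) ^ 2 = 8 * M' + 1 := by linear_combination 4 * hM'
        rw [e1, e2]
        linear_combination (-1) * hc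
      rw [h1] at ht
      set q := (2 * a' + 1) * N' - (2 * b' + 1) * M' - c - a' - 1 with hq
      have h2 : ∃ t', t = 4 * t' := by
        have h3 : (4 : ℤ) ∣ (2 * r' + 1) * t := ⟨2 * q + 1, by rw [← ht]; ring⟩
        have h4 : IsCoprime (4 : ℤ) (2 * r' + 1) := by
          rw [show (4 : ℤ) = 2 ^ 2 by norm_num]
          exact IsCoprime.pow_left ⟨-r', 1, by ring⟩
        exact h4.dvd_of_dvd_mul_left h3
      obtain ⟨t', rfl⟩ := h2
      refine ⟨t', rfl, ?_⟩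
      by_contra hc'
      rw [Int.not_odd_iff_even] at hc'
      obtain ⟨s, rfl⟩ := hc'
      have h5 : (2 * r' + 1) * (4 * (s + s)) = 8 * ((2 * r' + 1) * s) := by ring
      rw [h5] at ht
      omega
  -- conclusion
  have hcopt : ∀ t' : ℤ, Odd t' → (∀ p : ℕ, p.Prime → p ≠ 2 → p ∣ v → ¬ (p : ℤ) ∣ t') →
      IsCoprime t' (v : ℤ) := by
    intro t' ht1 ht2
    rw [Int.isCoprime_iff_gcd_eq_one]
    by_contra hc
    obtain ⟨p, hp, hpd⟩ := Nat.exists_prime_and_dvd hc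
    have h1 : (p : ℤ) ∣ t' := (Int.natCast_dvd_natCast.2 hpd).trans (Int.gcd_dvd_left ..)
    have h2 : (p : ℤ) ∣ (v : ℤ) := (Int.natCast_dvd_natCast.2 hpd).trans (Int.gcd_dvd_right ..)
    by_cases hp2 : p = 2
    · subst hp2
      rw [← Int.not_even_iff_odd] at ht1
      exact ht1 (even_iff_two_dvd.2 h1)
    · exact ht2 p hp hp2 (Int.natCast_dvd_natCast.1 h2) h1
  rcases hcase with h | ⟨t', rfl, ht'⟩
  · refine ⟨2 * m, 2 * n, t, by simpa using hn0, ?_, ?_, ?_, hcopt t h htp⟩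
    · push_cast
      rw [show (r₂ : ℝ) * (2 * m) = 2 * (r₂ * m) by ring, abs_mul, abs_two]
      linarith
    · push_cast
      rw [show (r₂ : ℝ) * (2 * n) = 2 * (r₂ * n) by ring, abs_mul, abs_two]
      linarith
    · linear_combination 4 * ht
  · refine ⟨m, n, t', hn0, by linarith, by linarith, by linear_combination ht,
      hcopt t' ht' fun p hp hp2 hpv hd => htp p hp hp2 hpv (Dvd.dvd.mul_left hd 4)⟩

end Pool.Agent.QHalf
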