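import Mathlib
import Pool.Agent.QHalf.Class
import Pool.Agent.QHalf.Lat
import Pool.Agent.QHalf.Approx

/-!
# QHalf, module Good: a member of the family without exceptional divisors (helper36)
-/

set_option autoImplicit false

namespace Pool.Agent.QHalf

open Finset

/-- product of the odd primes dividing `v` -/
def oddRad (v : ℕ) : ℕ := ∏ p ∈ v.primeFactors.erase 2, p

lemma oddRad_odd (v : ℕ) : Odd (oddRad v) := by
  unfold oddRad
  refine Finset.prod_induction _ Odd (fun _ _ => Odd.mul) odd_one fun p hp => ?_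
  rw [mem_erase] at hp
  exact (Nat.prime_of_mem_primeFactors hp.2).odd_of_ne_two hp.1

lemma oddRad_dvd (v : ℕ) : oddRad v ∣ v :=
  (prod_dvd_prod_of_subset _ _ _ (erase_subset _ _)).trans (Nat.prod_primeFactors_dvd v)

lemma oddRad_primeFactors (v : ℕ) : (oddRad v).primeFactors = v.primeFactors.erase 2 :=
  Nat.primeFactors_prod fun p hp => Nat.prime_of_mem_primeFactors (mem_of_mem_erase hp)

lemma oddRad_squarefree (v : ℕ) : Squarefree (oddRad v) := by
  have h1 : oddRad v ∣ ∏ p ∈ v.primeFactors, p :=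
    prod_dvd_prod_of_subset _ _ _ (erase_subset _ _)
  rw [← Nat.radical_eq_prod_primeFactors] at h1
  exact UniqueFactorizationMonoid.squarefree_radical.squarefree_of_dvd h1

lemma card_congr_le (F : Finset ℕ) (J d : ℕ) (hd : 0 < d) (hJ : ∀ j ∈ F, j < J)
    (h : ∀ j ∈ F, ∀ j' ∈ F, (d : ℤ) ∣ (j : ℤ) - j') : F.card ≤ J / d + 1 := by
  have h1 : F.card ≤ (range (J / d + 1)).card := by
    refine card_le_card_of_injOn (fun j => j / d) ?_ ?_
    · intro j hj
      rw [mem_coe, mem_range]
      exact Nat.lt_succ_of_le (Nat.div_le_div_right (hJ j hj).le)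
    · intro j hj j' hj' hjj
      have h2 := h j hj j' hj'
      have h3 : j % d = j' % d := by
        have h4 : (j' : ℤ) % d = (j : ℤ) % d := (Int.modEq_iff_dvd).2 h2
        exact_mod_cast h4.symm
      rw [← Nat.div_add_mod j d, ← Nat.div_add_mod j' d, h3]
      simp only at hjj
      rw [hjj]
  rwa [card_range] at h1

/-- some member of the family has no exceptional divisor -/
lemma exists_good (h v : ℕ) (hv : 0 < v) : ∃ z₀ : ℕ, ∀ z : ℕ, z₀ ≤ z → ∀ l g : ℕ, l = 2 * h + 6 →
    g = 3 * l + 5 → ∀ Q : ℕ → ℤ, (∀ j, 0 < Q j) →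
    (∀ j, j < z ^ g → Q j ≤ z ^ (g * h + g + 2)) →
    (∀ (r : ℤ) (j j' : ℕ), r ∣ Q j → r ∣ Q j' → r ∣ (j : ℤ) - j') →
    ∃ j, j < z ^ g ∧ ∀ d : ℕ, Exc z g d → ¬ (d : ℤ) ∣ Q j * (oddRad v : ℤ) := by
  classical
  obtain ⟨z₁, hz₁⟩ := exc_count h
  refine ⟨max z₁ (4 * v + 4), fun z hz l g hl hg Q hQ0 hQle hQ => ?_⟩
  have hzz : z₁ ≤ z := (le_max_left _ _).trans hz
  have hzv : 4 * v + 4 ≤ z := (le_max_right _ _).trans hz
  by_contra hcon
  push Not at hcon
  choose! d hd1 hd2 using hcon
  set v' := oddRad v with hv'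
  have hv'0 : 0 < v' := (oddRad_odd v).pos
  have hv'v : v' ≤ v := Nat.le_of_dvd hv (oddRad_dvd v)
  have hpow : 0 < z ^ (g - 1) := Nat.pow_pos (by omega)
  -- the reduced divisor
  have hred : ∀ j, j < z ^ g → ((d j / Nat.gcd (d j) v' : ℕ) : ℤ) ∣ Q j := by
    intro j hj
    have h1 := hd2 j hj
    have hdpos : 0 < d j := (hd1 j hj).1.pos
    have hgpos : 0 < Nat.gcd (d j) v' := Nat.gcd_pos_of_pos_left _ hdpos
    have h2 : d j ∣ (Q j).natAbs * v' := by
      rw [← Int.natCast_dvd_natCast]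
      push_cast
      rw [abs_of_pos (hQ0 j)]
      exact h1
    have h3 : d j / Nat.gcd (d j) v' ∣ (Q j).natAbs * (v' / Nat.gcd (d j) v') := by
      obtain ⟨k, hk⟩ := h2
      refine ⟨k, ?_⟩
      have h4 := Nat.div_mul_cancel (Nat.gcd_dvd_left (d j) v')
      have h5 := Nat.div_mul_cancel (Nat.gcd_dvd_right (d j) v')
      apply Nat.eq_of_mul_eq_mul_right hgpos
      calc (Q j).natAbs * (v' / Nat.gcd (d j) v') * Nat.gcd (d j) v'
          = (Q j).natAbs * (v' / Nat.gcd (d j) v' * Nat.gcd (d j) v') := by ring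
        _ = d j * k := by rw [h5, hk]
        _ = d j / Nat.gcd (d j) v' * Nat.gcd (d j) v' * k := by rw [h4]
        _ = d j / Nat.gcd (d j) v' * k * Nat.gcd (d j) v' := by ring
    have h4 := (Nat.coprime_div_gcd_div_gcd hgpos).dvd_of_dvd_mul_right h3
    exact (Int.natCast_dvd_natCast.2 h4).trans (by
      rw [Int.natCast_natAbs, abs_of_pos (hQ0 j)])
  set E := (range (z ^ g)).image d with hE
  have hEcard : E.card ≤ z ^ (3 * l + 3) := by
    refine hz₁ z hzz l g hl hg E fun e he => ?_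
    rw [hE, mem_image] at he
    obtain ⟨j, hj, rfl⟩ := he
    rw [mem_range] at hj
    refine ⟨hd1 j hj, ?_⟩
    have h1 := Int.le_of_dvd (by have := hQ0 j; positivity) (hd2 j hj)
    have h2 : (d j : ℤ) ≤ (z ^ (g * h + g + 2) * z : ℕ) := by
      refine h1.trans ?_
      push_cast
      refine mul_le_mul (hQle j hj) ?_ (by positivity) (by positivity)
      exact_mod_cast (show v' ≤ z by omega)
    rw [← pow_succ] at h2
    exact_mod_cast h2
  have hfib : ∀ e ∈ E, ((range (z ^ g)).filter (fun j => d j = e)).card ≤ z * (4 * v) + 1 := by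
    intro e he
    rw [hE, mem_image] at he
    obtain ⟨j₀, hj₀, rfl⟩ := he
    rw [mem_range] at hj₀
    set D := d j₀ / Nat.gcd (d j₀) v' with hD
    have hdpos : 0 < d j₀ := (hd1 j₀ hj₀).1.pos
    have hgpos : 0 < Nat.gcd (d j₀) v' := Nat.gcd_pos_of_pos_left _ hdpos
    have hDpos : 0 < D := Nat.div_pos (Nat.le_of_dvd hdpos (Nat.gcd_dvd_left _ _)) hgpos
    have h1 : ((range (z ^ g)).filter (fun j => d j = d j₀)).card ≤ z ^ g / D + 1 := by
      refine card_congr_le _ _ D hDpos ?_ ?_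
      · intro j hj
        exact mem_range.1 (mem_filter.1 hj).1
      · intro j hj j' hj'
        rw [mem_filter, mem_range] at hj hj'
        apply hQ
        · have := hred j hj.1
          rw [hj.2] at this
          exact this
        · have := hred j' hj'.1
          rw [hj'.2] at this
          exact this
    refine h1.trans (Nat.add_le_add_right ?_ 1)
    have h2 : z ^ (g - 1) ≤ 4 * d j₀ := exc_large (hd1 j₀ hj₀)
    have h3 : d j₀ ≤ D * v := by
      have h4 := Nat.div_mul_cancel (Nat.gcd_dvd_left (d j₀) v')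
      calc d j₀ = D * Nat.gcd (d j₀) v' := h4.symm
        _ ≤ D * v := Nat.mul_le_mul_left _ ((Nat.gcd_le_right _ hv'0).trans hv'v)
    apply Nat.div_le_of_le_mul
    have h5 : z ^ g = z * z ^ (g - 1) := by
      rw [← pow_succ']
      congr 1
      omega
    rw [h5]
    calc z * z ^ (g - 1) ≤ z * (4 * d j₀) := Nat.mul_le_mul_left _ h2
      _ ≤ z * (4 * (D * v)) := by gcongr
      _ = D * (z * (4 * v)) := by ring
  have hcount : z ^ g ≤ z ^ (3 * l + 3) * (z * (4 * v) + 1) := by
    calc z ^ g = (range (z ^ g)).card := (card_range _).symm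
      _ ≤ (z * (4 * v) + 1) * E.card := by
          refine card_le_mul_card_image (range (z ^ g)) _ ?_
          intro e he
          exact hfib e he
      _ ≤ (z * (4 * v) + 1) * z ^ (3 * l + 3) := Nat.mul_le_mul_left _ hEcard
      _ = _ := by ring
  have h6 : z ^ g = z ^ (3 * l + 3) * (z * z) := by
    rw [hg, show 3 * l + 5 = 3 * l + 3 + 2 by ring, pow_add]
    ring
  rw [h6] at hcount
  have h7 := Nat.le_of_mul_le_mul_left hcount (Nat.pow_pos (by omega))
  nlinarith

end Pool.Agent.QHalf
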