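import Mathlib
import Pool.Agent.QHalf.Good

/-!
# QHalf, module Main: the analytic conclusion (helper36)
-/

set_option autoImplicit false

namespace Pool.Agent.QHalf

open Finset Filter Topology

/-- one good denominator gives one good value -/
lemma one_step (θ : ℝ) (v : ℕ) (hv : 0 < v) (A Q : ℤ) (hQ : 1 < Q) (hcop : IsCoprime A Q)
    (hQv : IsCoprime Q ((2 * v : ℕ) : ℤ)) (hAv : IsCoprime A ((2 * v : ℕ) : ℤ)) (κ : ℝ)
    (herr : |4 * v * θ * Q - A| ≤ κ) (B z g M : ℕ) (hB : B = z ^ g) (hg : 1 ≤ g)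
    (hPM : Q * v ≤ (z ^ M : ℕ))
    (hclass : ∀ P : ℕ, Odd P → Squarefree P →
      P ≤ z ^ M → (∀ d, d ∣ P → d ≠ 1 → ¬ Exc z g d) →
      ∀ ε : ℕ → ℤ, (∀ p, ε p = 1 ∨ ε p = -1) → ∀ c : ℕ, c < 8 → Odd c →
      ∃ b : ℕ, 1 ≤ b ∧ b ≤ z ^ g ∧ b % 8 = c ∧ ∀ p ∈ P.primeFactors, jacobiSym b p = ε p)
    (hgood : ∀ d : ℕ, Exc z g d → ¬ (d : ℤ) ∣ Q * (oddRad v : ℤ)) :
    ∃ (n : ℕ) (t : ℤ), 0 < n ∧ (n : ℝ) ≤ 2 * (Q : ℝ) ^ ((3 : ℝ) / 4) ∧ IsCoprime t (v : ℤ) ∧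
      |(n : ℝ) ^ 2 * θ - t / v| ≤ B * (Q : ℝ) ^ (-(1 : ℝ) / 2) + (Q : ℝ) ^ ((1 : ℝ) / 2) * κ := by
  classical
  obtain ⟨R, rfl⟩ : ∃ R : ℕ, Q = R := ⟨Q.toNat, by omega⟩
  have hR1 : 1 < R := by exact_mod_cast hQ
  obtain ⟨r₁, r₂, hr₁, hr₂, hR, hsf⟩ := Nat.sq_mul_squarefree_of_pos (show 0 < R by omega)
  have hRodd : Odd R := by
    rw [← Nat.coprime_two_left, ← Nat.isCoprime_iff_coprime]
    push_cast at hQv
    exact (hQv.of_mul_right_left).symm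
  have hRv : Nat.Coprime R v := by
    rw [← Nat.isCoprime_iff_coprime]
    push_cast at hQv
    exact hQv.of_mul_right_right
  have hAodd : Odd A := by
    push_cast at hAv
    have h1 := hAv.of_mul_right_left
    rw [← Int.not_even_iff_odd]
    intro h2
    obtain ⟨k, hk⟩ := h2.two_dvd
    rw [hk] at h1
    exact absurd (h1.of_mul_left_left) (by
      intro h3
      obtain ⟨x, y, hxy⟩ := h3
      omega)
  have hAvv : IsCoprime A (v : ℤ) := by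
    push_cast at hAv
    exact hAv.of_mul_right_right
  have hr₁R : r₁ ∣ R := ⟨r₂ ^ 2, by rw [← hR]; ring⟩
  have hr₁odd : Odd r₁ := Odd.of_dvd_nat hRodd hr₁R
  have hr₁v : Nat.Coprime r₁ v := Nat.Coprime.coprime_dvd_left hr₁R hRv
  have hAr : IsCoprime A (r₁ : ℤ) := by
    obtain ⟨k, hk⟩ := hr₁R
    rw [hk] at hcop
    push_cast at hcop
    exact hcop.of_mul_right_left
  have hv'le : oddRad v ≤ v := Nat.le_of_dvd hv (oddRad_dvd v)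
  have hcopP : Nat.Coprime r₁ (oddRad v) := Nat.Coprime.coprime_dvd_right (oddRad_dvd v) hr₁v
  -- the Jacobi symbols of A
  have hJ : ∀ p : ℕ, p.Prime → IsCoprime A (p : ℤ) → jacobiSym A p = 1 ∨ jacobiSym A p = -1 := by
    intro p _ h
    exact jacobiSym.eq_one_or_neg_one (Int.isCoprime_iff_gcd_eq_one.1 h)
  obtain ⟨c, hc8, hcodd, hcA⟩ : ∃ c : ℕ, c < 8 ∧ Odd c ∧ (8 : ℤ) ∣ (c : ℤ) - 5 * A := by
    obtain ⟨k, hk⟩ := hAodd
    refine ⟨((5 * A) % 8).toNat, by omega, ?_, by omega⟩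
    rw [Nat.odd_iff]
    omega
  obtain ⟨b, hb1, hb2, hb3, hb4⟩ := hclass (r₁ * oddRad v) (hr₁odd.mul (oddRad_odd v))
    ((Nat.squarefree_mul hcopP).2 ⟨hsf, oddRad_squarefree v⟩) (by
      have h1 : r₁ * oddRad v ≤ R * v :=
        Nat.mul_le_mul (Nat.le_of_dvd (by omega) hr₁R) hv'le
      have h2 : R * v ≤ z ^ M := by exact_mod_cast hPM
      exact h1.trans h2)
    (by
      intro d hd _ hE
      refine hgood d hE ?_
      have h1 : d ∣ R * oddRad v := hd.trans (Nat.mul_dvd_mul_right hr₁R _)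
      exact_mod_cast h1)
    (fun p => if p ∣ v then (if jacobiSym A p = 1 then -1 else 1)
      else (if jacobiSym A p = 1 then 1 else -1))
    (by intro p; split_ifs <;> simp) c hc8 hcodd
  have hP0 : r₁ * oddRad v ≠ 0 := (Nat.mul_pos hr₁ (oddRad_odd v).pos).ne'
  have hbr : ∀ p ∈ r₁.primeFactors, jacobiSym (A * (b : ℤ)) p = 1 := by
    intro p hp
    rw [Nat.mem_primeFactors] at hp
    have hpv : ¬ p ∣ v := by
      intro h
      have h2 : p ∣ Nat.gcd r₁ v := Nat.dvd_gcd hp.2.1 h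
      rw [hr₁v] at h2
      exact hp.1.one_lt.ne' (Nat.dvd_one.1 h2)
    have h1 := hb4 p (Nat.mem_primeFactors.2 ⟨hp.1, Dvd.dvd.mul_right hp.2.1 _, hP0⟩)
    rw [if_neg hpv] at h1
    have h2 : IsCoprime A (p : ℤ) := by
      obtain ⟨k, hk⟩ := hp.2.1
      rw [hk] at hAr
      push_cast at hAr
      exact hAr.of_mul_right_left
    rw [jacobiSym.mul_left, h1]
    rcases hJ p hp.1 h2 with h3 | h3 <;> rw [h3] <;> norm_num
  have hbv : ∀ p : ℕ, p.Prime → p ≠ 2 → p ∣ v → jacobiSym (A * (b : ℤ)) p = -1 := by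
    intro p hp hp2 hpv
    have hpo : p ∣ oddRad v := by
      refine dvd_prod_of_mem (fun p : ℕ => p) (mem_erase.2 ⟨hp2, ?_⟩)
      exact Nat.mem_primeFactors.2 ⟨hp, hpv, hv.ne'⟩
    have h1 := hb4 p (Nat.mem_primeFactors.2 ⟨hp, Dvd.dvd.mul_left hpo _, hP0⟩)
    rw [if_pos hpv] at h1
    have h2 : IsCoprime A (p : ℤ) := by
      obtain ⟨k, hk⟩ := hpv
      rw [hk] at hAvv
      push_cast at hAvv
      exact hAvv.of_mul_right_left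
    rw [jacobiSym.mul_left, h1]
    rcases hJ p hp h2 with h3 | h3 <;> rw [h3] <;> norm_num
  have hRr : (1 : ℝ) < R := by exact_mod_cast hR1
  have hRpos : (0 : ℝ) < R := by linarith
  obtain ⟨m, n, t, hn0, hm, hn, hform, ht⟩ := key_vec v r₁ r₂ hsf hr₂ (by rw [hR]; exact hR1)
    hr₁odd hr₁v A b hAodd hAr (by
      have : Odd b := by
        rw [Nat.odd_iff] at hcodd ⊢
        omega
      exact_mod_cast this) (by omega) hbr hbv ((R : ℝ) ^ ((1 : ℝ) / 4)) ((R : ℝ) ^ ((3 : ℝ) / 4))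
    (by positivity) (by positivity)
    (by rw [← Real.rpow_add hRpos, hR]; norm_num)
    (by
      rw [← Real.rpow_natCast, ← Real.rpow_mul hRpos.le, hR]
      norm_num)
  set μ : ℝ := (R : ℝ) ^ ((1 : ℝ) / 4) with hμ
  set ν : ℝ := (R : ℝ) ^ ((3 : ℝ) / 4) with hν
  have hμ2 : μ ^ 2 = R * (R : ℝ) ^ (-(1 : ℝ) / 2) := by
    rw [hμ, ← Real.rpow_natCast, ← Real.rpow_mul hRpos.le]
    nth_rewrite 2 [← Real.rpow_one (R : ℝ)]
    rw [← Real.rpow_add hRpos]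
    norm_num
  have hν2 : ν ^ 2 = R * (R : ℝ) ^ ((1 : ℝ) / 2) := by
    rw [hν, ← Real.rpow_natCast, ← Real.rpow_mul hRpos.le]
    nth_rewrite 2 [← Real.rpow_one (R : ℝ)]
    rw [← Real.rpow_add hRpos]
    norm_num
  have hNabs : ((r₂ * n.natAbs : ℕ) : ℝ) = |(r₂ * n : ℝ)| := by
    push_cast
    rw [abs_mul, Nat.abs_cast, Nat.cast_natAbs, Int.cast_abs]
  refine ⟨r₂ * n.natAbs, t, Nat.mul_pos hr₂ (Int.natAbs_pos.2 hn0), ?_, ht, ?_⟩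
  · rw [hNabs]
    exact_mod_cast hn
  · rw [hNabs, sq_abs]
    have hvr : (1 : ℝ) ≤ v := by exact_mod_cast hv
    have hformr : (A : ℝ) * n ^ 2 - b * m ^ 2 = 4 * r₁ * t := by exact_mod_cast hform
    have hRr2 : (r₂ : ℝ) ^ 2 * r₁ = R := by exact_mod_cast hR
    have hκ : 0 ≤ κ := (abs_nonneg _).trans herr
    have hkey : (r₂ * n : ℝ) ^ 2 * θ - t / v
        = (b * (r₂ * m : ℝ) ^ 2 + (r₂ * n : ℝ) ^ 2 * (4 * v * θ * R - A)) / (4 * v * R) := by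
      rw [eq_div_iff (by positivity)]
      have h1 : (t : ℝ) / v * (4 * v * R) = 4 * R * t := by
        field_simp
      rw [sub_mul, h1]
      linear_combination ((r₂ : ℝ) ^ 2) * hformr + 4 * (t : ℝ) * hRr2
    rw [hkey, abs_div, abs_of_pos (by positivity : (0:ℝ) < 4 * v * R)]
    rw [div_le_iff₀ (by positivity)]
    have hm2 : (r₂ * m : ℝ) ^ 2 ≤ 4 * μ ^ 2 := by
      have h1 := sq_le_sq' (by linarith [abs_nonneg (r₂ * m : ℝ), hm, (by positivity : 0 ≤ μ), neg_abs_le (r₂ * m : ℝ)])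
        ((le_abs_self _).trans hm)
      calc (r₂ * m : ℝ) ^ 2 ≤ (2 * μ) ^ 2 := h1
        _ = 4 * μ ^ 2 := by ring
    have hn2 : (r₂ * n : ℝ) ^ 2 ≤ 4 * ν ^ 2 := by
      have h1 := sq_le_sq' (by linarith [abs_nonneg (r₂ * n : ℝ), hn, (by positivity : 0 ≤ ν), neg_abs_le (r₂ * n : ℝ)])
        ((le_abs_self _).trans hn)
      calc (r₂ * n : ℝ) ^ 2 ≤ (2 * ν) ^ 2 := h1
        _ = 4 * ν ^ 2 := by ring
    have hbB : (b : ℝ) ≤ B := by rw [hB]; exact_mod_cast hb2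
    have herr' : |4 * (v : ℝ) * θ * R - A| ≤ κ := by exact_mod_cast herr
    calc |(b : ℝ) * (r₂ * m : ℝ) ^ 2 + (r₂ * n : ℝ) ^ 2 * (4 * v * θ * R - A)|
        ≤ |(b : ℝ) * (r₂ * m : ℝ) ^ 2| + |(r₂ * n : ℝ) ^ 2 * (4 * v * θ * R - A)| := abs_add_le _ _
      _ = (b : ℝ) * (r₂ * m : ℝ) ^ 2 + (r₂ * n : ℝ) ^ 2 * |4 * v * θ * R - A| := by
          rw [abs_of_nonneg (by positivity : (0:ℝ) ≤ (b : ℝ) * (r₂ * m : ℝ) ^ 2), abs_mul,
            abs_of_nonneg (by positivity : (0:ℝ) ≤ (r₂ * n : ℝ) ^ 2)]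
      _ ≤ B * (4 * μ ^ 2) + (4 * ν ^ 2) * κ := by
          gcongr
      _ = (B * (R : ℝ) ^ (-(1 : ℝ) / 2) + (R : ℝ) ^ ((1 : ℝ) / 2) * κ) * (4 * 1 * R) := by
          rw [hμ2, hν2]; ring
      _ ≤ (B * (R : ℝ) ^ (-(1 : ℝ) / 2) + (R : ℝ) ^ ((1 : ℝ) / 2) * κ) * (4 * v * R) := by
          gcongr

theorem main_prop (θ : ℝ) (hθ : Irrational θ) (v : ℕ) (hv : 0 < v) (ε : ℝ) (hε : 0 < ε)
    (hε2 : ε < 2 / 3) (δ : ℝ) (hδ : 0 < δ) (N₀ : ℕ) :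
    ∃ (n : ℕ) (t : ℤ), N₀ ≤ n ∧ 0 < n ∧ IsCoprime t (v : ℤ) ∧
      (n : ℝ) ^ ((2 : ℝ) / 3 - ε) * |(n : ℝ) ^ 2 * θ - t / v| < δ := by
  classical
  obtain ⟨h, hh⟩ := exists_nat_ge (8 / ε)
  have hh0 : 0 < h := by
    have : (0 : ℝ) < h := lt_of_lt_of_le (by positivity) hh
    exact_mod_cast this
  obtain ⟨l, hl⟩ : ∃ l, l = 2 * h + 6 := ⟨_, rfl⟩
  obtain ⟨g, hg⟩ : ∃ g, g = 3 * l + 5 := ⟨_, rfl⟩
  obtain ⟨z₁, hz₁⟩ := exists_good h v hv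
  obtain ⟨z₂, hz₂⟩ := class_exists (g * h + g + 3)
  set W : ℕ := 2 * v with hW
  have hW0 : 0 < W := by omega
  have hθ' : Irrational (4 * v * θ) := by
    have h1 : Irrational (((4 * v : ℕ) : ℝ) * θ) := hθ.natCast_mul (by omega)
    push_cast at h1
    exact h1
  set C : ℝ := 6 * (W : ℝ) ^ 2 with hC
  have hC0 : 0 ≤ C := by positivity
  obtain ⟨δ', hδ', hgap⟩ := irr_gap hθ (v * N₀ ^ 2)
  have hvr : (1 : ℝ) ≤ v := by exact_mod_cast hv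
  set δm : ℝ := min δ (δ' / v) with hδm
  have hδm0 : 0 < δm := lt_min hδ (by positivity)
  set C3 : ℝ := 2 * (C + 2) * (1 + W) ^ 3 * 8 ^ g with hC3
  have hC30 : 0 < C3 := by positivity
  have htend : Tendsto (fun x : ℝ => C3 * x ^ (-(3 * ε / 8))) atTop (𝓝 (C3 * 0)) :=
    (tendsto_rpow_neg_atTop (by positivity)).const_mul C3
  rw [mul_zero] at htend
  obtain ⟨X, hX⟩ := (htend.eventually (gt_mem_nhds hδm0)).exists_forall_of_atTop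
  set Z : ℕ := z₁ + z₂ + W + v + 2 with hZ
  obtain ⟨a, q, hKq, hcop, hqW, haW, herr⟩ := approx1 hθ' W hW0 (max (Z ^ (g * h)) ⌈X⌉₊)
  have hqZ : ((Z ^ (g * h) : ℕ) : ℤ) < q :=
    lt_of_le_of_lt (by exact_mod_cast le_max_left _ _) hKq
  have hqX : X ≤ (q : ℝ) := by
    have h1 : ((⌈X⌉₊ : ℕ) : ℤ) < q := lt_of_le_of_lt (by exact_mod_cast le_max_right _ _) hKq
    have h2 : ((⌈X⌉₊ : ℕ) : ℝ) < q := by exact_mod_cast h1
    exact (Nat.le_ceil X).trans h2.le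
  have hq0 : 0 < q := lt_of_le_of_lt (by positivity) hqZ
  have hgh : 0 < g * h := Nat.mul_pos (by omega) hh0
  have hexz : ∃ z : ℕ, q ≤ (z ^ (g * h) : ℕ) := by
    refine ⟨q.toNat, ?_⟩
    have h1 : q.toNat ≤ q.toNat ^ (g * h) := Nat.le_self_pow hgh.ne' _
    have h2 : (q.toNat : ℤ) = q := Int.toNat_of_nonneg hq0.le
    rw [← h2]
    exact_mod_cast h1
  set z := Nat.find hexz with hz
  have hzq : q ≤ (z ^ (g * h) : ℕ) := Nat.find_spec hexz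
  have hzZ : Z < z := by
    by_contra hc
    push Not at hc
    have h1 : z ^ (g * h) ≤ Z ^ (g * h) := Nat.pow_le_pow_left hc _
    have h2 : ((z ^ (g * h) : ℕ) : ℤ) ≤ (Z ^ (g * h) : ℕ) := by exact_mod_cast h1
    omega
  have hz1 : (((z - 1) ^ (g * h) : ℕ) : ℤ) < q := by
    have h1 := Nat.find_min hexz (m := z - 1) (by omega)
    omega
  have hz2 : 2 ≤ z := by omega
  obtain ⟨A, Q, hfam, hfamd⟩ := family W hW0 a q hq0 hcop hqW haW C hC0 herr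
  obtain ⟨j, hj, hgood⟩ := hz₁ z (by omega) l g hl hg Q (fun j => by
    have := (hfam j).2.2.2.1
    omega) (by
      intro j hj
      refine (hfam j).2.2.2.2.1.trans ?_
      have h1 : (1 + (j : ℤ) * W) ≤ z ^ (g + 2) := by
        have h2 : 1 + j * W ≤ z ^ (g + 2) := by
          have h3 : 1 ≤ z ^ g := Nat.one_le_pow _ _ (by omega)
          calc 1 + j * W ≤ z ^ g + z ^ g * W := Nat.add_le_add h3 (Nat.mul_le_mul_right _ hj.le)
            _ = z ^ g * (1 + W) := by ring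
            _ ≤ z ^ g * (z * z) := Nat.mul_le_mul_left _ (by nlinarith)
            _ = z ^ (g + 2) := by rw [pow_add]; ring
        exact_mod_cast h2
      have h2 : q ≤ (z : ℤ) ^ (g * h) := by exact_mod_cast hzq
      calc (1 + (j : ℤ) * W) * q ≤ z ^ (g + 2) * z ^ (g * h) :=
            mul_le_mul h1 h2 hq0.le (by positivity)
        _ = (z : ℤ) ^ (g * h + g + 2) := by rw [← pow_add]; congr 1; ring) hfamd
  obtain ⟨hcopj, hQW, hAW, hqQ, hQq, herrj⟩ := hfam j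
  have hQM : Q j ≤ (z : ℤ) ^ (g * h + g + 2) := by
    refine hQq.trans ?_
    have h1 : (1 + (j : ℤ) * W) ≤ z ^ (g + 2) := by
      have h2 : 1 + j * W ≤ z ^ (g + 2) := by
        have h3 : 1 ≤ z ^ g := Nat.one_le_pow _ _ (by omega)
        calc 1 + j * W ≤ z ^ g + z ^ g * W := Nat.add_le_add h3 (Nat.mul_le_mul_right _ hj.le)
          _ = z ^ g * (1 + W) := by ring
          _ ≤ z ^ g * (z * z) := Nat.mul_le_mul_left _ (by nlinarith)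
          _ = z ^ (g + 2) := by rw [pow_add]; ring
      exact_mod_cast h2
    have h2 : q ≤ (z : ℤ) ^ (g * h) := by exact_mod_cast hzq
    calc (1 + (j : ℤ) * W) * q ≤ z ^ (g + 2) * z ^ (g * h) :=
          mul_le_mul h1 h2 hq0.le (by positivity)
      _ = (z : ℤ) ^ (g * h + g + 2) := by rw [← pow_add]; congr 1; ring
  have hZpos : 1 ≤ Z ^ (g * h) := Nat.one_le_pow _ _ (by omega)
  have hQ1 : 1 < Q j := by
    have : (1 : ℤ) ≤ (Z ^ (g * h) : ℕ) := by exact_mod_cast hZpos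
    omega
  obtain ⟨n, t, hn0, hn, ht, hE⟩ := one_step θ v hv (A j) (Q j) hQ1 hcopj hQW hAW _ herrj
    (z ^ g) z g (g * h + g + 3) rfl (by omega) (by
      have h1 : (v : ℤ) ≤ z := by exact_mod_cast (show v ≤ z by omega)
      calc Q j * v ≤ (z : ℤ) ^ (g * h + g + 2) * z :=
            mul_le_mul hQM h1 (by positivity) (by positivity)
        _ = ((z ^ (g * h + g + 3) : ℕ) : ℤ) := by push_cast; ring)
    (hz₂ z (by omega) g (by omega)) hgood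
  -- estimates
  have hqr : (0 : ℝ) < q := by exact_mod_cast hq0
  have hQr : (q : ℝ) ≤ Q j := by exact_mod_cast hqQ
  have hQpos : (0 : ℝ) < Q j := lt_of_lt_of_le hqr hQr
  set F : ℝ := 1 + (z : ℝ) ^ g * W with hF
  have hjF : (1 : ℝ) + j * W ≤ F := by
    have : (j : ℝ) ≤ (z : ℝ) ^ g := by exact_mod_cast hj.le
    rw [hF]
    gcongr
  have hF1 : 1 ≤ F := by rw [hF]; linarith [show (0:ℝ) ≤ (z : ℝ) ^ g * W by positivity]
  have hzF : (z : ℝ) ^ g ≤ F := by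
    have hWr : (1 : ℝ) ≤ W := by exact_mod_cast hW0
    rw [hF]
    nlinarith [show (0:ℝ) ≤ (z : ℝ) ^ g by positivity]
  have hQF : (Q j : ℝ) ≤ F * q := by
    have h1 : (Q j : ℝ) ≤ (1 + j * W) * q := by exact_mod_cast hQq
    exact h1.trans (mul_le_mul_of_nonneg_right hjF hqr.le)
  have hq1 : (1 : ℝ) ≤ q := by exact_mod_cast hq0
  set s : ℝ := (2 : ℝ) / 3 - ε with hs
  have hs0 : 0 < s := by rw [hs]; linarith
  have hs1 : s ≤ 1 := by rw [hs]; linarith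
  have hE2 : |(n : ℝ) ^ 2 * θ - t / v| ≤ (C + 2) * F ^ 2 * (q : ℝ) ^ (-(1 : ℝ) / 2) := by
    refine hE.trans ?_
    have h1 : (Q j : ℝ) ^ (-(1 : ℝ) / 2) ≤ (q : ℝ) ^ (-(1 : ℝ) / 2) :=
      Real.rpow_le_rpow_of_nonpos hqr hQr (by norm_num)
    have h2 : (Q j : ℝ) ^ ((1 : ℝ) / 2) ≤ F * (q : ℝ) ^ ((1 : ℝ) / 2) := by
      calc (Q j : ℝ) ^ ((1 : ℝ) / 2) ≤ (F * q) ^ ((1 : ℝ) / 2) :=
            Real.rpow_le_rpow hQpos.le hQF (by norm_num)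
        _ = F ^ ((1 : ℝ) / 2) * (q : ℝ) ^ ((1 : ℝ) / 2) := Real.mul_rpow (by linarith) hqr.le
        _ ≤ F ^ (1 : ℝ) * (q : ℝ) ^ ((1 : ℝ) / 2) := by
            gcongr
            norm_num
        _ = F * (q : ℝ) ^ ((1 : ℝ) / 2) := by rw [Real.rpow_one]
    have h3 : (C + 1) * (1 + j * W) / q ≤ (C + 1) * F / q := by gcongr
    have h4 : (q : ℝ) ^ ((1 : ℝ) / 2) / q = (q : ℝ) ^ (-(1 : ℝ) / 2) := by
      nth_rewrite 2 [← Real.rpow_one (q : ℝ)]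
      rw [← Real.rpow_sub hqr]
      norm_num
    have h5 : (0 : ℝ) ≤ (q : ℝ) ^ (-(1 : ℝ) / 2) := by positivity
    calc ((z ^ g : ℕ) : ℝ) * (Q j : ℝ) ^ (-(1 : ℝ) / 2)
          + (Q j : ℝ) ^ ((1 : ℝ) / 2) * ((C + 1) * (1 + j * W) / q)
        ≤ F * (q : ℝ) ^ (-(1 : ℝ) / 2) + (F * (q : ℝ) ^ ((1 : ℝ) / 2)) * ((C + 1) * F / q) := by
          push_cast
          gcongr
      _ = F * (q : ℝ) ^ (-(1 : ℝ) / 2)
          + (C + 1) * F ^ 2 * ((q : ℝ) ^ ((1 : ℝ) / 2) / q) := by ring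
      _ = F * (q : ℝ) ^ (-(1 : ℝ) / 2) + (C + 1) * F ^ 2 * (q : ℝ) ^ (-(1 : ℝ) / 2) := by rw [h4]
      _ ≤ F ^ 2 * (q : ℝ) ^ (-(1 : ℝ) / 2) + (C + 1) * F ^ 2 * (q : ℝ) ^ (-(1 : ℝ) / 2) := by
          gcongr
          nlinarith
      _ = (C + 2) * F ^ 2 * (q : ℝ) ^ (-(1 : ℝ) / 2) := by ring
  have hn2 : (n : ℝ) ^ s ≤ 2 * F * (q : ℝ) ^ (3 / 4 * s) := by
    have h1 : (n : ℝ) ≤ (2 * F) * (q : ℝ) ^ ((3 : ℝ) / 4) := by
      refine hn.trans ?_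
      calc 2 * (Q j : ℝ) ^ ((3 : ℝ) / 4) ≤ 2 * (F * q) ^ ((3 : ℝ) / 4) := by
            gcongr
        _ = 2 * (F ^ ((3 : ℝ) / 4) * (q : ℝ) ^ ((3 : ℝ) / 4)) := by
            rw [Real.mul_rpow (by linarith) hqr.le]
        _ ≤ 2 * (F ^ (1 : ℝ) * (q : ℝ) ^ ((3 : ℝ) / 4)) := by
            gcongr
            norm_num
        _ = (2 * F) * (q : ℝ) ^ ((3 : ℝ) / 4) := by rw [Real.rpow_one]; ring
    calc (n : ℝ) ^ s ≤ ((2 * F) * (q : ℝ) ^ ((3 : ℝ) / 4)) ^ s := by gcongr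
      _ = (2 * F) ^ s * ((q : ℝ) ^ ((3 : ℝ) / 4)) ^ s := Real.mul_rpow (by linarith) (by positivity)
      _ = (2 * F) ^ s * (q : ℝ) ^ (3 / 4 * s) := by rw [← Real.rpow_mul hqr.le]
      _ ≤ (2 * F) ^ (1 : ℝ) * (q : ℝ) ^ (3 / 4 * s) := by
          gcongr
          linarith
      _ = 2 * F * (q : ℝ) ^ (3 / 4 * s) := by rw [Real.rpow_one]
  -- the size of F
  have hFq : F ≤ (1 + W) * 2 ^ g * (q : ℝ) ^ (1 / (h : ℝ)) := by
    have h1 : (z : ℝ) ^ g ≤ 2 ^ g * (q : ℝ) ^ (1 / (h : ℝ)) := by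
      have h2 : (((z - 1 : ℕ) : ℝ) ^ g) ≤ (q : ℝ) ^ (1 / (h : ℝ)) := by
        have h3 : (((z - 1 : ℕ) : ℝ) ^ g) ^ (h : ℝ) ≤ q := by
          rw [Real.rpow_natCast, ← pow_mul]
          exact_mod_cast hz1.le
        calc (((z - 1 : ℕ) : ℝ) ^ g) = ((((z - 1 : ℕ) : ℝ) ^ g) ^ (h : ℝ)) ^ (1 / (h : ℝ)) := by
              rw [← Real.rpow_mul (by positivity), mul_one_div_cancel (by positivity),
                Real.rpow_one]
          _ ≤ (q : ℝ) ^ (1 / (h : ℝ)) := by gcongr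
      have h3 : (z : ℝ) ≤ 2 * ((z - 1 : ℕ) : ℝ) := by
        have : z ≤ 2 * (z - 1) := by omega
        exact_mod_cast this
      calc (z : ℝ) ^ g ≤ (2 * ((z - 1 : ℕ) : ℝ)) ^ g := by gcongr
        _ = 2 ^ g * ((z - 1 : ℕ) : ℝ) ^ g := mul_pow _ _ _
        _ ≤ 2 ^ g * (q : ℝ) ^ (1 / (h : ℝ)) := by gcongr
    have h2 : (1 : ℝ) ≤ (z : ℝ) ^ g := one_le_pow₀ (by exact_mod_cast (show 1 ≤ z by omega))
    calc F ≤ (z : ℝ) ^ g + (z : ℝ) ^ g * W := by rw [hF]; linarith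
      _ = (1 + W) * (z : ℝ) ^ g := by ring
      _ ≤ (1 + W) * (2 ^ g * (q : ℝ) ^ (1 / (h : ℝ))) := by gcongr
      _ = _ := by ring
  have hF3 : F ^ 3 ≤ (1 + W) ^ 3 * 8 ^ g * (q : ℝ) ^ (3 / (h : ℝ)) := by
    calc F ^ 3 ≤ ((1 + W) * 2 ^ g * (q : ℝ) ^ (1 / (h : ℝ))) ^ 3 := by gcongr
      _ = (1 + W) ^ 3 * (2 ^ g) ^ 3 * ((q : ℝ) ^ (1 / (h : ℝ))) ^ 3 := by ring
      _ = (1 + W) ^ 3 * 8 ^ g * (q : ℝ) ^ (3 / (h : ℝ)) := by
          rw [← pow_mul, mul_comm g 3, pow_mul, ← Real.rpow_natCast ((q : ℝ) ^ (1 / (h : ℝ))) 3,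
            ← Real.rpow_mul hqr.le]
          norm_num
          left
          congr 1
          ring
  have hprod : (n : ℝ) ^ s * |(n : ℝ) ^ 2 * θ - t / v| < δm := by
    refine lt_of_le_of_lt ?_ (hX (q : ℝ) hqX)
    have hexp : (3 : ℝ) / h ≤ 3 * ε / 8 := by
      rw [div_le_iff₀ (by positivity)]
      rw [div_le_iff₀ hε] at hh
      nlinarith
    calc (n : ℝ) ^ s * |(n : ℝ) ^ 2 * θ - t / v|
        ≤ (2 * F * (q : ℝ) ^ (3 / 4 * s)) * ((C + 2) * F ^ 2 * (q : ℝ) ^ (-(1 : ℝ) / 2)) :=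
          mul_le_mul hn2 hE2 (abs_nonneg _) (by positivity)
      _ = 2 * (C + 2) * F ^ 3 * ((q : ℝ) ^ (3 / 4 * s) * (q : ℝ) ^ (-(1 : ℝ) / 2)) := by ring
      _ = 2 * (C + 2) * F ^ 3 * (q : ℝ) ^ (-(3 * ε / 4)) := by
          rw [← Real.rpow_add hqr]
          congr 2
          rw [hs]
          ring
      _ ≤ 2 * (C + 2) * ((1 + W) ^ 3 * 8 ^ g * (q : ℝ) ^ (3 / (h : ℝ)))
          * (q : ℝ) ^ (-(3 * ε / 4)) := by gcongr
      _ = C3 * ((q : ℝ) ^ (3 / (h : ℝ)) * (q : ℝ) ^ (-(3 * ε / 4))) := by rw [hC3]; ring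
      _ = C3 * (q : ℝ) ^ (3 / (h : ℝ) + -(3 * ε / 4)) := by rw [← Real.rpow_add hqr]
      _ ≤ C3 * (q : ℝ) ^ (-(3 * ε / 8)) := by
          gcongr
          linarith
  refine ⟨n, t, ?_, hn0, ht, lt_of_lt_of_le hprod (min_le_left _ _)⟩
  by_contra hc
  push Not at hc
  have hn1 : (1 : ℝ) ≤ n := by exact_mod_cast hn0
  have h1 : |(n : ℝ) ^ 2 * θ - t / v| < δ' / v := by
    have h2 : (1 : ℝ) ≤ (n : ℝ) ^ s := Real.one_le_rpow hn1 hs0.le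
    have h3 : |(n : ℝ) ^ 2 * θ - t / v| ≤ (n : ℝ) ^ s * |(n : ℝ) ^ 2 * θ - t / v| :=
      le_mul_of_one_le_left (abs_nonneg _) h2
    exact lt_of_le_of_lt h3 (lt_of_lt_of_le hprod (min_le_right _ _))
  have h2 := hgap ((v * n ^ 2 : ℕ) : ℤ) (by
    have : 0 < v * n ^ 2 := by positivity
    exact_mod_cast this) (by
      have : v * n ^ 2 ≤ v * N₀ ^ 2 := Nat.mul_le_mul_left _ (Nat.pow_le_pow_left hc.le 2)
      exact_mod_cast this) t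
  have h3 : θ * (((v * n ^ 2 : ℕ) : ℤ) : ℝ) - t = v * ((n : ℝ) ^ 2 * θ - t / v) := by
    push_cast
    field_simp
  rw [h3, abs_mul, Nat.abs_cast] at h2
  rw [lt_div_iff₀ (by positivity)] at h1
  linarith

end Pool.Agent.QHalf
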